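import Pool.Agent.MP_ecfd11_lc.H65S.Defs
import Pool.Agent.MP_ecfd11_lc.H13F.Defs

/-!
Covering by few small sets of HOD.
-/

namespace Pool.Agent.MP_ecfd11_lc.H13U

universe u

open ZFSet

/-- Every subset of `X` of size below `t` is covered by at most `k` sets in HOD of size below
`t`. -/
def Cvr (k : Cardinal.{u}) (t X : ZFSet.{u}) : Prop :=
  ∀ Z : ZFSet.{u}, Z ⊆ X → card Z < card t → ∃ H : ZFSet.{u}, card H ≤ k ∧
    (∀ G ∈ H, HOD Set.univ G ∧ card G < card t) ∧ ∀ z ∈ Z, ∃ G ∈ H, z ∈ G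

end Pool.Agent.MP_ecfd11_lc.H13U
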