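import Pool.Agent.MP_ecfd11_lc.H13F.Main
import Pool.Agent.MP_ecfd11_lc.H65S.Base
import Pool.Agent.MP_ecfd11_lc.H13U.Defs

/-!
Realizers of ultrafilters over covers of a level of HOD.
-/

set_option synthInstance.maxSize 4000

namespace Pool.Agent.MP_ecfd11_lc.H13U

open Pool.Agent.MP_ecfd11_lc.H20 Pool.Agent.MP_ecfd11_lc.H13X Pool.Agent.MP_ecfd11_lc.H3U
  Pool.Agent.MP_ecfd11_lc.H3E Pool.Agent.MP_ecfd11_lc.H13F Pool.Agent.MP_ecfd11_lc.H65S

universe u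

open ZFSet Cardinal Function Filter

variable {a b c t u v w x p W X : ZFSet.{u}}

/-- Every small part of `W` is realized by a point of `t`. -/
def K (t W : ZFSet.{u}) : Prop :=
  W ⊆ Lev t ∧ ∀ Z, Z ⊆ Lev t → ¬ card t ≤ card Z → ∃ p, p ∈ t ∧ ∀ A, A ∈ Z → (A ∈ W ↔ p ∈ A)

/-- `p` realizes `w` over `v[a]`. -/
def Rz (v a w p : ZFSet.{u}) : Prop := ∀ x, InP v a x → (x ∈ w ↔ p ∈ x)

/-- Some realizer of `w` below `L` is smaller than all realizers of `w'` below `L`. -/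
def Gam (L v w w' a : ZFSet.{u}) : Prop :=
  ∃ p, p ∈ L ∧ Rz v a w p ∧ ∀ q, q ∈ L → Rz v a w' q → p ∈ q

/-- The traces at `b` of the functions in `u`. -/
noncomputable def tru (u b : ZFSet.{u}) : ZFSet.{u} :=
  img (fun g => gr (fun i => app g i ∩ vC Set.univ b) b) u

/-- `u` is a countable set of functions `A → X` whose ranges cover `X`. -/
def En (A X u : ZFSet.{u}) : Prop :=
  card u ≤ card om ∧ (∀ g, g ∈ u → IsFunc A X g) ∧ ∀ x, x ∈ X → ∃ g, g ∈ u ∧ ∃ i, pair i x ∈ g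

/-- The filtration `v[a]`, `a < b`, of `X` is compatible with the functions `b → X` in HOD. -/
def Ni (g b X v : ZFSet.{u}) : Prop :=
  (∀ x, x ∈ X → ∃ a, a ∈ b ∧ InP v a x) ∧
  (∀ a, a ∈ b → ∃ H, card H ≤ card g ∧ (∀ h, h ∈ H → HOD Set.univ h ∧ IsFunc b X h) ∧
    ∀ x, InP v a x → InP H b x) ∧
  ∀ h, HOD Set.univ h → IsFunc b X h → ∀ a, a ∈ b → ∃ c, c ∈ b ∧
    (∀ i, i ∈ a → InP v c (app h i)) ∧
    ∀ i, i ∈ b → InP v a (app h i) → ∃ j, j ∈ c ∧ app h j = app h i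

/-- All members of the class `C` agree with its member `v` on a club. -/
def Can (C : ZFSet.{u} → Prop) (b v : ZFSet.{u}) : Prop :=
  C v ∧ ∀ w, C w → Null b (b.sep fun a => ¬ ∀ x, InP w a x ↔ InP v a x)

/-- A definable form of `Lev`. -/
noncomputable def lv (b : ZFSet.{u}) : ZFSet.{u} :=
  (vC Set.univ (insert b b)).sep fun x => HOD Set.univ x

theorem lv_eq (hb : b.IsOrdinal) : lv b = Lev b := by
  rw [lv, Lev, vC_ord (ord_succ hb), rank_insert, max_eq_left (Order.le_succ _),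
    Order.succ_eq_add_one]

section
variable (p q r s t : (ℕ → ZFSet.{u}) → ZFSet.{u}) [Tm Set.univ On p] [Tm Set.univ On q]
  [Tm Set.univ On r] [Tm Set.univ On s] [Tm Set.univ On t]

instance Df.rz : Df Set.univ On (fun v => Rz (q v) (r v) (s v) (t v)) := by
  unfold Rz; infer_instance

instance Df.gam : Df Set.univ On (fun v => Gam (p v) (q v) (r v) (s v) (t v)) := by
  unfold Gam; infer_instance

instance Df.en : Df Set.univ On (fun v => En (r v) (s v) (t v)) := by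
  unfold En; infer_instance

instance Df.ni : Df Set.univ On (fun v => Ni (q v) (r v) (s v) (t v)) := by
  unfold Ni; infer_instance

instance Tm.lv : Tm Set.univ On (fun v => lv (t v)) := by
  unfold H13U.lv; infer_instance

end

/-- `b` is a point at which the cover `u` of `Lev t` reflects. -/
structure Gd (t u b : ZFSet.{u}) : Prop where
  mem : b ∈ t
  lim : ∀ x ∈ b, ∃ c ∈ b, x ∈ c
  tr : ∀ A ∈ Lev b, ∃ X, InP u b X ∧ A = X ∩ vC Set.univ b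
  s0 : ∀ X Y, InP u b X → InP u b Y → X ∩ vC Set.univ b = Y ∩ vC Set.univ b → X = Y
  s2 : ∀ U X, InP u b U → InP u b X → ∀ i ∈ b,
    (∀ z ∈ vC Set.univ b, z ∈ X ↔ pair i z ∈ U) → ∀ z, z ∈ X ↔ pair i z ∈ U

theorem inP_mono (h : a ⊆ b) (hx : InP u a x) : InP u b x := by
  obtain ⟨g, g1, i, i1, i2⟩ := hx
  exact ⟨g, g1, i, h i1, i2⟩

theorem inP_mem {A Y : ZFSet.{u}} (hu : En A Y u) (hx : InP u a x) : x ∈ Y := by
  obtain ⟨g, g1, i, -, i2⟩ := hx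
  exact (pair_mem_prod.1 ((hu.2.1 g g1).1 i2)).2

theorem rz_mono (h : a ⊆ b) (hp : Rz u b w p) : Rz u a w p := fun x hx => hp x (inP_mono h hx)

theorem gam_congr {w' : ZFSet.{u}} (h : ∀ x, InP v a x ↔ InP u a x) :
    Gam c v w w' a ↔ Gam c u w w' a := by
  simp only [Gam, Rz, h]

/-- Diagonal intersections along a cover. -/
theorem ev_inP (ht : Regular Set.univ t) {S Y : ZFSet.{u}} (hu : En t Y u)
    {q : ZFSet.{u} → ZFSet.{u} → Prop}
    (h : ∀ x ∈ Y, ∀ᶠ b in cf S (unc_of_regular ht), q x b) :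
    ∀ᶠ b in cf S (unc_of_regular ht), ∀ x, InP u b x → q x b := by
  filter_upwards [ev_ball (S := S) ht (hu.1.trans_lt (ht.card_lt ht.2.1))
    (p := fun g b => ∀ i ∈ b, q (app g i) b) fun g hg => ev_diag ht fun i hi =>
      h _ ((hu.2.1 g hg).app_mem' hi)] with b hb x ⟨g, g1, i, i1, i2⟩
  exact (hu.2.1 g g1).app_eq i2 ▸ hb g g1 i i1

theorem En.inP {A Y : ZFSet.{u}} (hv : En A Y v) (hx : x ∈ Y) :
    ∃ i ∈ A, ∀ b, i ∈ b → InP v b x := by
  obtain ⟨g, g1, i, g2⟩ := hv.2.2 x hx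
  exact ⟨i, (pair_mem_prod.1 ((hv.2.1 g g1).1 g2)).1, fun b hb => ⟨g, g1, i, hb, g2⟩⟩

theorem can_top (ht : Regular Set.univ t) (hu : En t (Lev t) u) :
    Can (En t (Lev t)) t u := ⟨hu, fun w hw => by
  have h1 : ∀ {u w : ZFSet.{u}}, En t (Lev t) u → En t (Lev t) w →
      ∀ᶠ b in cf t (unc_of_regular ht), ∀ x, InP u b x → InP w b x := fun hu hw =>
    ev_inP ht hu fun x hx => by
      obtain ⟨i, i1, i2⟩ := hw.inP hx
      filter_upwards [ev_above (unc_of_regular ht) i1] with b hb using i2 b hb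
  refine (ev_iff (S := t) (unc_of_regular ht)).1 ?_
  filter_upwards [h1 hu hw, h1 hw hu] with b h2 h3 x using ⟨h3 x, h2 x⟩⟩

theorem inP_tru (ht : t.IsOrdinal) (hu : En t (Lev t) u) (hb : b ∈ t) (ha : a ⊆ b) :
    InP (tru u b) a x ↔ ∃ X, InP u a X ∧ x = X ∩ vC Set.univ b := by
  constructor
  · rintro ⟨_, g0, i, i1, i2⟩
    obtain ⟨g, g1, rfl⟩ := mem_img.1 g0
    exact ⟨_, ⟨g, g1, i, i1, (hu.2.1 g g1).app_mem (ht.mem_trans (ha i1) hb)⟩,
      (pair_mem_gr.1 i2).2.symm⟩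
  · rintro ⟨X, ⟨g, g1, i, i1, i2⟩, rfl⟩
    exact ⟨_, mem_img.2 ⟨g, g1, rfl⟩, i, i1,
      pair_mem_gr.2 ⟨ha i1, by rw [(hu.2.1 g g1).app_eq i2]⟩⟩

theorem mem_pull : x ∈ pull u b W ↔ ∃ X, X ∈ W ∧ InP u b X ∧ X ∩ vC Set.univ b = x := by
  simp only [pull, mem_img, mem_sep, and_assoc]

theorem Gd.pull (h : Gd t u b) (hX : InP u b X) : X ∩ vC Set.univ b ∈ pull u b W ↔ X ∈ W :=
  ⟨fun h1 => by
    obtain ⟨Y, y1, y2, y3⟩ := mem_pull.1 h1
    exact h.s0 Y X y2 hX y3 ▸ y1, fun h1 => mem_pull.2 ⟨X, h1, hX, rfl⟩⟩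

theorem Gd.pull_sub (ht : t.IsOrdinal) (hu : En t (Lev t) u) (h : Gd t u b) :
    H3E.pull u b W ⊆ Lev b := fun x hx => by
  obtain ⟨X, -, h1, rfl⟩ := mem_pull.1 hx
  exact inter_Lev ht (inP_mem hu h1) (ht.mem h.mem)

theorem Gd.rz (ht : t.IsOrdinal) (hu : En t (Lev t) u) (h : Gd t u b) (ha : a ⊆ b) (hp : p ∈ b) :
    Rz (tru u b) a (H3E.pull u b W) p ↔ Rz u a W p := by
  have h1 := H3E.mem_vC (ht.mem h.mem) hp
  refine ⟨fun h2 X hX => ?_, fun h2 x hx => ?_⟩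
  · rw [← h.pull (inP_mono ha hX), h2 _ ((inP_tru ht hu h.mem ha).2 ⟨X, hX, rfl⟩), mem_inter,
      and_iff_left h1]
  · obtain ⟨X, hX, rfl⟩ := (inP_tru ht hu h.mem ha).1 hx
    rw [h.pull (inP_mono ha hX), h2 X hX, mem_inter, and_iff_left h1]

/-- A function in HOD is coded by a member of `u[b]`. -/
theorem Gd.code (ht : t.IsOrdinal) (h : Gd t u b) {g : ZFSet.{u}} (hg : HOD Set.univ g)
    (g1 : IsFunc b (Lev b) g) :
    ∃ U, InP u b U ∧ ∀ i ∈ b, ∀ z ∈ vC Set.univ b, z ∈ app g i ↔ pair i z ∈ U := by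
  have bo := ht.mem h.mem
  have := hod_tm hg
  have : Tm Set.univ On (fun _ => b) := Tm.ofOrd bo
  obtain ⟨U, hU⟩ : ∃ U : ZFSet.{u},
      U = (prod b (vC Set.univ b)).sep fun p => snd p ∈ app g (fst p) := ⟨_, rfl⟩
  have h0 : OD Set.univ U := od_iff.2 (hU ▸ inferInstance)
  have hm : ∀ i z, pair i z ∈ U ↔ (i ∈ b ∧ z ∈ vC Set.univ b) ∧ z ∈ app g i := fun i z => by
    rw [hU, mem_sep, pair_mem_prod, fst_pair, snd_pair]
  have hs : U ⊆ prod b (vC Set.univ b) := hU ▸ sep_subset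
  have h1 : U ∈ Lev b := by
    refine (mem_Lev bo).2 ⟨fun p hp => ?_, hod_of h0 fun p hp => ?_⟩ <;>
      obtain ⟨i, hi, z, hz, rfl⟩ := mem_prod.1 (hs hp)
    · exact (pair_vC bo h.lim).2 ⟨H3E.mem_vC bo hi, hz⟩
    · exact hod_pair (hod_ord (bo.mem hi)) ((hod_app hg g1 hi).mem ((hm i z).1 hp).2)
  obtain ⟨w, hw, e⟩ := h.tr U h1
  refine ⟨w, hw, fun i hi z hz => ?_⟩
  have h2 := hm i z
  rw [e, mem_inter, and_iff_left ((pair_vC bo h.lim).2 ⟨H3E.mem_vC bo hi, hz⟩),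
    and_iff_right ⟨hi, hz⟩] at h2
  exact h2.symm

theorem card_inP (ht : Regular Set.univ t) (hu : En t (Lev t) u) (ha : a ∈ t) :
    card ((Lev t).sep (InP u a)) < card t :=
  lt_of_le_of_lt ((card_le_of_surj (a := prod u a) (fun z => app (fst z) (snd z)) fun x hx => by
      obtain ⟨g, g1, i, i1, i2⟩ := (mem_sep.1 hx).2
      exact ⟨pair g i, pair_mem_prod.2 ⟨g1, i1⟩, by
        rw [fst_pair, snd_pair, (hu.2.1 g g1).app_eq i2]⟩).trans (card_prod_le _ _))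
    (mul_lt_of_lt ht.aleph0_lt.le (hu.1.trans_lt (ht.card_lt ht.2.1)) (ht.card_lt ha))

theorem K.rz (ht : Regular Set.univ t) (hu : En t (Lev t) u) (hW : K t W) (ha : a ∈ t) :
    ∃ p ∈ t, Rz u a W p := by
  obtain ⟨p, p1, p2⟩ := hW.2 _ sep_subset (card_inP ht hu ha).not_ge
  exact ⟨p, p1, fun x hx => p2 x (mem_sep.2 ⟨inP_mem hu hx, hx⟩)⟩

theorem K.apx (ht : t.IsOrdinal) (hW : K t W) : Apx t (Lev t) W := fun Y y0 y1 y2 => by
  obtain ⟨p, p1, p2⟩ := hW.2 Y y1 y2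
  have : Tm Set.univ On (fun _ => p) := Tm.ofOrd (ht.mem p1)
  have := hod_tm y0
  have e : W ∩ Y = Y.sep fun A => p ∈ A := ZFSet.ext fun A => by
    rw [mem_inter, mem_sep, and_comm]
    exact and_congr_right (p2 A)
  exact hod_sub y0 (fun _ h => (mem_inter.1 h).2) (od_iff.2 (e ▸ inferInstance))

end Pool.Agent.MP_ecfd11_lc.H13U
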