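import Pool.Agent.MP_ecfd11_lc.H13U.Base
import Pool.Agent.MP_ecfd11_lc.H65S.KP

/-!
Few cardinals give covering.
-/

set_option synthInstance.maxSize 4000

namespace Pool.Agent.MP_ecfd11_lc.H13U

open Pool.Agent.MP_ecfd11_lc.H20 Pool.Agent.MP_ecfd11_lc.H13X Pool.Agent.MP_ecfd11_lc.H3U
  Pool.Agent.MP_ecfd11_lc.H3E Pool.Agent.MP_ecfd11_lc.H13F Pool.Agent.MP_ecfd11_lc.H65S

universe u

open ZFSet Cardinal Function Filter

variable {t X Y Z n m : ZFSet.{u}} {k : Cardinal.{u}}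

theorem cv_mono (h : Cv k t Y) (h1 : X ⊆ Y) : Cv k t X := by
  obtain ⟨u, u1, u2, u3⟩ := h
  exact ⟨u, u1, u2, fun x hx => u3 x (h1 hx)⟩

theorem cv_img (h : Cv k t Y) (h0 : OD Set.univ X) (F : ZFSet.{u} → ZFSet.{u})
    [f0 : Tm Set.univ On (fun v => F (v 0))] (f2 : ∀ x ∈ X, ∀ y ∈ X, F x = F y → x = y)
    (z1 : Z ⊆ X) (f1 : ∀ x ∈ Z, F x ∈ Y) : Cv k t Z := by
  obtain ⟨u, u1, u2, u3⟩ := h
  have := od_iff.1 h0
  have := Tm.one (C := Set.univ) (A := On) F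
  refine ⟨img (fun W => X.sep fun x => F x ∈ W) u, (card_img_le _ _).trans u1, fun V hV => ?_,
    fun x hx => ?_⟩
  · obtain ⟨W, hW, rfl⟩ := mem_img.1 hV
    have := od_iff.1 (u2 W hW).1
    exact ⟨od_iff.2 inferInstance, DInj.trans ⟨F, f0, fun x hx => (mem_sep.1 hx).2,
      fun x hx z hz => f2 x (mem_sep.1 hx).1 z (mem_sep.1 hz).1⟩ (u2 W hW).2⟩
  · obtain ⟨W, w1, w2⟩ := u3 _ (f1 x hx)
    exact ⟨_, mem_img.2 ⟨W, w1, rfl⟩, mem_sep.2 ⟨z1 hx, w2⟩⟩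

theorem cv_small (ht : Regular Set.univ t) (h : Cv k t Z) (hZ : card Z < card t) :
    ∃ u, card u ≤ k ∧ (∀ W ∈ u, OD Set.univ W ∧ ∃ b ∈ t, DInj Set.univ W b) ∧
      ∀ x ∈ Z, ∃ W ∈ u, x ∈ W := by
  obtain ⟨u, u1, u2, u3⟩ := h
  have h1 : ∀ W ∈ u, ∃ V, (OD Set.univ V ∧ ∃ b ∈ t, DInj Set.univ V b) ∧
      ∀ x ∈ Z, x ∈ W → x ∈ V := fun W hW => by
    obtain ⟨F, f0, f1, f2⟩ := (u2 W hW).2
    have := od_iff.1 (u2 W hW).1
    have := Tm.one (C := Set.univ) (A := On) F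
    obtain ⟨b, b1, b2⟩ := ht.bddV (x := Z ∩ W) ((card_mono fun z hz =>
      (mem_inter.1 hz).1).trans_lt hZ) F fun i hi => f1 i (mem_inter.1 hi).2
    have : Tm Set.univ On (fun _ => b) := Tm.ofOrd (ht.1.mem b1)
    exact ⟨W.sep fun x => F x ∈ b, ⟨od_iff.2 inferInstance, b, b1, F, f0,
      fun x hx => (mem_sep.1 hx).2, fun x hx z hz => f2 x (mem_sep.1 hx).1 z (mem_sep.1 hz).1⟩,
      fun x hx hw => mem_sep.2 ⟨hw, b2 x (mem_inter.2 ⟨hx, hw⟩)⟩⟩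
  choose! G g1 g2 using h1
  refine ⟨img G u, (card_img_le _ _).trans u1, fun V hV => ?_, fun x hx => ?_⟩
  · obtain ⟨W, hW, rfl⟩ := mem_img.1 hV
    exact g1 W hW
  · obtain ⟨W, w1, w2⟩ := u3 x hx
    exact ⟨_, mem_img.2 ⟨W, w1, rfl⟩, g2 W w1 x hx w2⟩

theorem cov_step (hk : ℵ₀ ≤ k) (ht : Regular Set.univ t) (hn : Unc n)
    (hb : H57F.Bd (Order.succ k) n) {c : ZFSet.{u}} (c1 : Club n c) (c2 : card c < card t)
    (hm : m.IsOrdinal) (h1 : ∀ x ∈ n, H46.rho x ⊆ m)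
    (h2 : ∀ Z, Z ⊆ m → card Z < card t → Cv k t Z) (z1 : Z ⊆ n) (z2 : card Z < card t) :
    Cv k t Z := by
  have ho : om ⊆ t := ht.1.subset_of_mem ht.2.1
  have hi : ℵ₀ ≤ card t := card_om.symm.trans_le (card_mono ho)
  obtain ⟨E, e0, e1, e2⟩ := H46.exists_E hn.1
  have := Tm.two (C := Set.univ) (A := On) E
  have : Tm Set.univ On (fun _ => n) := Tm.ofOrd hn.1
  have z3 : card (img (fun p => E (fst p) (snd p)) ((prod c c).sep fun p => snd p ∈ fst p)) <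
      card t := (card_img_le _ _).trans_lt ((card_mono sep_subset).trans_lt
    ((card_prod_le _ _).trans_lt (mul_lt_of_lt hi c2 c2)))
  obtain ⟨u, u1, u2, u3⟩ := cv_small ht (h2 _ (fun z hz => by
    obtain ⟨p, hp, rfl⟩ := mem_img.1 hz
    obtain ⟨l, hl, x, -, rfl⟩ := mem_prod.1 (mem_sep.1 hp).1
    have := (mem_sep.1 hp).2
    rw [fst_pair, snd_pair] at this ⊢
    exact h1 l (c1.1 hl) (e1 l (c1.1 hl) x this)) z3) z3
  have := neBot (S := n) hn fun ⟨e, e1, e2⟩ => by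
    obtain ⟨x, x1, -⟩ := e1.2.1 _ hn.empty_mem
    exact e2 x (e1.1 x1) x1
  have s1 : ∀ x ∈ c, ∃ W ∈ u, ∃ᶠ l in cf n hn, x ∈ l ∧ E l x ∈ W := fun x hx => by
    by_contra h3
    simp only [not_exists, not_and, not_frequently] at h3
    obtain ⟨l, l1, l2, l3⟩ := ((H57F.ev_small hn hb (Order.lt_succ_iff.2 u1) h3).and
      ((ev_above hn (c1.1 hx)).and (ev_club hn c1))).exists
    obtain ⟨W, w1, w2⟩ := u3 (E l x) (mem_img.2 ⟨pair l x, mem_sep.2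
      ⟨pair_mem_prod.2 ⟨l3, hx⟩, by rwa [fst_pair, snd_pair]⟩, by rw [fst_pair, snd_pair]⟩)
    exact l1 W w1 l2 w2
  obtain ⟨W, w1, w2⟩ : ∃ W ∈ u, ∀ x ∈ n, ∃ z ∈ n, (∃ᶠ l in cf n hn, z ∈ l ∧ E l z ∈ W) ∧ x ∈ z := by
    by_contra h3
    push Not at h3
    choose! B b1 b2 using h3
    obtain ⟨d, d1, d2⟩ := hb (img B u) (fun z hz => by
      obtain ⟨W, hW, rfl⟩ := mem_img.1 hz
      exact b1 W hW) (Order.lt_succ_iff.2 ((card_img_le _ _).trans u1))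
    obtain ⟨x, x1, x2⟩ := c1.2.1 d d1
    obtain ⟨W, w1, w2⟩ := s1 x x1
    exact b2 W w1 x (c1.1 x1) w2 ((hn.1.mem (c1.1 x1)).mem_trans (d2 _ (mem_img.2 ⟨W, w1, rfl⟩)) x2)
  have := od_iff.1 (u2 W w1).1
  obtain ⟨b, b1, F, -, f1, f2⟩ := (u2 W w1).2
  obtain ⟨X, hX⟩ : ∃ X, X = n.sep fun z => ¬ Null n (n.sep fun l => z ∈ l ∧ E l z ∈ W) :=
    ⟨_, rfl⟩
  have x0 : Tm Set.univ On (fun _ => X) := by rw [hX]; infer_instance
  have x1 : ∀ z, z ∈ X ↔ z ∈ n ∧ ∃ᶠ l in cf n hn, z ∈ l ∧ E l z ∈ W := fun z => by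
    rw [hX, mem_sep, fr_iff]
  have x2 : card X < card t := by
    have h3 : ∀ z ∈ X, ∃ l ∈ c, z ∈ l ∧ E l z ∈ W := fun z hz => by
      obtain ⟨l, l1, l2⟩ := (((x1 z).1 hz).2.and_eventually (ev_club hn c1)).exists
      exact ⟨l, l2, l1⟩
    choose! p p1 p2 p3 using h3
    refine (card_le_of_inj (b := prod c b) (fun z => pair (p z) (F (E (p z) z)))
      (fun z hz => pair_mem_prod.2 ⟨p1 z hz, f1 _ (p3 z hz)⟩) fun z hz w hw e => ?_).trans_lt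
      ((card_prod_le _ _).trans_lt (mul_lt_of_lt hi c2 (ht.card_lt b1)))
    obtain ⟨e3, e4⟩ := pair_inj.1 e
    have e5 := f2 _ (p3 z hz) _ (p3 w hw) e4
    rw [← e3] at e5
    exact e2 _ (c1.1 (p1 z hz)) z (p2 z hz) w (e3 ▸ p2 w hw) e5
  have x3 : ∀ z ∈ X, z.IsOrdinal := fun z hz => hn.1.mem ((x1 z).1 hz).1
  have cx : Cv k t X := Cv.self hk (od_iff.2 x0) ⟨fun z => colIn X z, inferInstance,
    fun z hz => ht.1.mem_trans (mem_img.2 ⟨z, hz, rfl⟩) (H46.mem_of_card_lt (img_colIn_ord x3) ht.1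
      ((card_img_le _ _).trans_lt x2)), fun z hz w hw => colIn_inj x3 hz hw⟩
  obtain ⟨G, g0, g1, g2⟩ := kp_cof (m := m) hn.1 (od_iff.2 x0) (fun x hx => by
      obtain ⟨z, z1, z2, z3⟩ := w2 x hx
      exact ⟨z, z1, (x1 z).2 ⟨z1, z2⟩, z3⟩) (fun z hz => by
      obtain ⟨-, ⟨f, f0, f1⟩, -⟩ := H46.rho_spec (hn.1.mem hz)
      exact (H46.dInj_of_od f0 f1).trans (DInj.of_subset (h1 z hz))) (od_iff.2 (Tm.ofOrd hm))
  refine cv_img (Cv.prod hk ht.1 ho cx (h2 (img (fun z => snd (G z)) Z) (fun y hy => ?_)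
    ((card_img_le _ _).trans_lt z2))) (od_iff.2 (Tm.ofOrd hn.1)) G g2 z1 fun z hz => ?_
  · obtain ⟨z, hz, rfl⟩ := mem_img.1 hy
    obtain ⟨x, -, y, hy, e⟩ := mem_prod.1 (g1 z (z1 hz))
    rwa [e, snd_pair]
  · obtain ⟨x, hx, y, -, e⟩ := mem_prod.1 (g1 z (z1 hz))
    rw [e]
    exact pair_mem_prod.2 ⟨hx, mem_img.2 ⟨z, hz, by rw [e, snd_pair]⟩⟩

theorem cov_ord (hk : ℵ₀ ≤ k) (ht : Regular Set.univ t) (hn : n.IsOrdinal)
    (h2 : card (n.sep fun x => t ∈ x ∧ H46.HODCard x) ≤ k) :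
    ∀ Z, Z ⊆ n → card Z < card t → Cv k t Z := by
  have ho : om ⊆ t := ht.1.subset_of_mem ht.2.1
  induction n using ZFSet.inductionOn with
  | _ n ih =>
  intro Z z1 z2
  have ih' : ∀ b ∈ n, ∀ Z, Z ⊆ b → card Z < card t → Cv k t Z := fun b hb => ih b hb (hn.mem hb)
    ((card_mono fun z hz =>
      mem_sep.2 ⟨hn.mem_trans (mem_sep.1 hz).1 hb, (mem_sep.1 hz).2⟩).trans h2)
  rcases ht.1.mem_or_subset hn with h3 | h3
  swap
  · exact cv_mono (Cv.self hk (od_iff.2 (Tm.ofOrd hn)) (DInj.of_subset h3)) z1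
  by_cases hb : H57F.Bd (Order.succ k) n
  · have hu : Unc n := ⟨hn, fun z z1 z2 =>
      hb z z1 (Order.lt_succ_iff.2 (z2.trans (card_om.trans_le hk)))⟩
    by_cases h4 : ∀ x, x ∈ n → ∃ z, z ∈ Z ∧ x ∈ z
    swap
    · push Not at h4
      obtain ⟨x, x1, x2⟩ := h4
      obtain ⟨y, y1, y2⟩ := hu.succ x1
      exact ih' y y1 Z (fun z hz => (hn.mem (z1 hz)).mem_of_subset_of_mem (hn.mem y1)
        (((hn.mem x1).notMem_iff_subset (hn.mem (z1 hz))).1 (x2 z hz)) y2) z2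
    obtain ⟨c, c1, c2⟩ := Sm.exists_club ht hn ⟨Z, z1, not_le.2 z2, h4⟩
    obtain ⟨d, d1, d2⟩ := hb _ sep_subset (Order.lt_succ_iff.2 h2)
    have hm := union_mem hn d1 h3
    refine cov_step hk ht hu hb c1 c2 (hn.mem hm) (fun x hx => ?_) (ih' _ hm) z1 z2
    have r0 := H46.rho_ord (hn.mem hx)
    rcases ht.1.mem_or_subset r0 with h4 | h4
    · exact fun z hz => mem_union.2 (Or.inl ((hn.mem d1).mem_trans hz (d2 _ (mem_sep.2
        ⟨r0.mem_of_subset_of_mem hn (H46.rho_subset (hn.mem hx)) hx, h4,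
          H46.hodCard_rho (hn.mem hx)⟩))))
    · exact fun z hz => mem_union.2 (Or.inr (h4 hz))
  · simp only [H57F.Bd, not_forall, not_exists, not_and] at hb
    obtain ⟨y, y1, y2, y3⟩ := hb
    have hy := Order.lt_succ_iff.1 y2
    have h5 : Cv k t y := Cv.union hk hy (fun b => {b}) (fun b hb => by
      have : Tm Set.univ On (fun _ => b) := Tm.ofOrd (hn.mem (y1 hb))
      exact Cv.self hk (od_iff.2 inferInstance) ⟨fun _ => om, inferInstance, fun _ _ => ht.2.1,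
        fun x hx z hz _ => (mem_singleton.1 hx).trans (mem_singleton.1 hz).symm⟩)
      fun x hx => ⟨x, hx, mem_singleton.2 rfl⟩
    obtain ⟨u, u1, u2, u3⟩ := h5
    obtain ⟨v, v1, v2, v3⟩ := Cv.union (X := Z.sep fun x => ∃ b ∈ y, x ∈ b) hk hy (fun b => Z ∩ b)
      (fun b hb => ih' b (y1 hb) _ (fun z hz => (mem_inter.1 hz).2)
        ((card_mono fun z hz => (mem_inter.1 hz).1).trans_lt z2)) fun x hx => by
      obtain ⟨b, b1, b2⟩ := (mem_sep.1 hx).2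
      exact ⟨b, b1, mem_inter.2 ⟨(mem_sep.1 hx).1, b2⟩⟩
    refine ⟨u ∪ v, card_union_le.trans (add_le_of_le hk u1 v1), fun W hW =>
      (mem_union.1 hW).elim (u2 W) (v2 W), fun x hx => ?_⟩
    obtain ⟨w, w1, w2⟩ := y3 x (z1 hx)
    rcases (hn.mem (z1 hx)).eq_or_mem_of_subset (hn.mem (y1 w1))
      (((hn.mem (y1 w1)).notMem_iff_subset (hn.mem (z1 hx))).1 w2) with e | e
    · obtain ⟨W, h6, h7⟩ := u3 x (e ▸ w1)
      exact ⟨W, mem_union.2 (Or.inl h6), h7⟩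
    · obtain ⟨W, h6, h7⟩ := v3 x (mem_sep.2 ⟨hx, w, w1, e⟩)
      exact ⟨W, mem_union.2 (Or.inr h6), h7⟩

/-- Subsets of `X` of size less than `t` are covered by `k` definable sets injecting into `t`. -/
theorem cov (hk : ℵ₀ ≤ k) (ht : Regular Set.univ t) (hX : HOD Set.univ X) (h : Few k t X)
    (z1 : Z ⊆ X) (z2 : card Z < card t) : Cv k t Z := by
  obtain ⟨n, f, hn, f0, f1, f2, h2⟩ := h
  have := hod_tm f0
  have : Tm Set.univ On (fun _ => n) := Tm.ofOrd hn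
  have h1 : ∀ x ∈ X, _ := fun x hx =>
    leastBy_id (p := fun i => app f i = x) hn (by
      obtain ⟨r, hr⟩ := f2 x hx
      exact ⟨r, (pair_mem_prod.1 (f1.1 hr)).1, f1.app_eq hr⟩)
  exact cv_img (cov_ord hk ht hn h2 (img (fun x => leastBy n (fun i => i) fun i => app f i = x) Z)
    (fun y hy => by
      obtain ⟨x, hx, rfl⟩ := mem_img.1 hy
      exact (h1 x (z1 hx)).1) ((card_img_le _ _).trans_lt z2)) hX.self
    (fun x => leastBy n (fun i => i) fun i => app f i = x)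
    (f0 := Tm.leastBy n (fun i => i) fun x i => app f i = x)
    (fun x hx z hz e => by rw [← (h1 x hx).2, ← (h1 z hz).2]; exact congrArg _ e) z1
    fun x hx => mem_img.2 ⟨x, hx, rfl⟩

theorem cvr_of_few (ht : Regular Set.univ t) (hk : ℵ₀ ≤ k) (hX : HOD Set.univ X) (h : Few k t X) :
    Cvr k t X := fun Z z1 z2 => by
  obtain ⟨u, u1, u2, u3⟩ := cv_small ht (cov hk ht hX h z1 z2) z2
  refine ⟨img (fun W => X ∩ W) u, (card_img_le _ _).trans u1, fun G hG => ?_, fun z hz => ?_⟩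
  · obtain ⟨W, hW, rfl⟩ := mem_img.1 hG
    obtain ⟨w0, b, b1, F, -, f1, f2⟩ := u2 W hW
    exact ⟨hod_inter hX w0, (card_mono fun z hz => (mem_inter.1 hz).2).trans_lt
      ((card_le_of_inj F f1 f2).trans_lt (ht.card_lt b1))⟩
  · obtain ⟨W, w1, w2⟩ := u3 z hz
    exact ⟨_, mem_img.2 ⟨W, w1, rfl⟩, mem_inter.2 ⟨z1 hz, w2⟩⟩

end Pool.Agent.MP_ecfd11_lc.H13U
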