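import Pool.Agent.MP_ecfd11_lc.H13U.Base

/-!
Almost every point is good.
-/

set_option synthInstance.maxSize 4000

namespace Pool.Agent.MP_ecfd11_lc.H13U

open Pool.Agent.MP_ecfd11_lc.H20 Pool.Agent.MP_ecfd11_lc.H13X Pool.Agent.MP_ecfd11_lc.H3U
  Pool.Agent.MP_ecfd11_lc.H3E Pool.Agent.MP_ecfd11_lc.H13F Pool.Agent.MP_ecfd11_lc.H65S

universe u

open ZFSet Cardinal Function Filter

variable {e t u : ZFSet.{u}}

theorem ev_gd (he : StronglyCompact e t) (het : e ∈ t) (hs : StronglyMeasurable Set.univ t)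
    (hu : En t (Lev t) u) :
    ∀ᶠ b in cf t (unc_of_regular hs.1), Gd t u b := by
  have ht := hs.1
  have un := unc_of_regular ht
  have hc : card (Lev t) ≤ card t := by
    refine (card_le_of_surj (a := prod u t) (fun z => app (fst z) (snd z)) fun x hx => ?_).trans
      ((card_prod_le _ _).trans ?_)
    · obtain ⟨g, g1, i, i2⟩ := hu.2.2 x hx
      exact ⟨pair g i, pair_mem_prod.2 ⟨g1, (pair_mem_prod.1 ((hu.2.1 g g1).1 i2)).1⟩, by
        rw [fst_pair, snd_pair, (hu.2.1 g g1).app_eq i2]⟩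
    · exact (mul_le_mul_left (hu.1.trans (ht.card_lt ht.2.1).le) _).trans
        (mul_eq_self ht.aleph0_lt.le).le
  obtain ⟨B, b1, b2⟩ : ∃ B : ZFSet.{u} → ZFSet.{u}, (∀ x ∈ t, B x ∈ Lev t) ∧
      ∀ A ∈ Lev t, ∃ x ∈ t, B x = A := by
    obtain ⟨F, hF⟩ := exists_surj_of_card_le hc
    classical
    refine ⟨fun x => if F x ∈ Lev t then F x else ∅, fun x _ => ?_, fun A hA => ?_⟩
    · dsimp only
      split_ifs with h
      exacts [h, (mem_Lev ht.1).2 ⟨empty_subset _, hod_ord isOrdinal_empty⟩]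
    · obtain ⟨x, hx, rfl⟩ := hF A hA
      exact ⟨x, hx, if_pos hA⟩
  have sub : ∀ X ∈ Lev t, X ⊆ vC Set.univ t := fun X hX => ((mem_Lev ht.1).1 hX).1
  have b3 : ∀ x ∈ t, B x ⊆ vC Set.univ t := fun x hx => sub _ (b1 x hx)
  have hT := trace_all ht he.1 B b3 (cover he het hs fun S h1 => trace' he het hs h1 B b1 b2)
  have h1 : ∀ᶠ b in cf t un, ∀ x ∈ b, InP u b (B x) := ev_diag ht fun x hx => by
    obtain ⟨i, i1, i2⟩ := hu.inP (b1 x hx)
    filter_upwards [ev_above un i1] with b hb using i2 b hb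
  have s0 : ∀ᶠ b in cf t un, ∀ X, InP u b X → ∀ Y, InP u b Y →
      X ∩ vC Set.univ b = Y ∩ vC Set.univ b → X = Y :=
    ev_inP ht hu fun X hX => ev_inP ht hu fun Y hY => by
      by_cases h : ∀ z, z ∈ X ↔ z ∈ Y
      · exact Eventually.of_forall fun _ _ => ZFSet.ext h
      obtain ⟨z, hz⟩ := not_forall.1 h
      have h2 : z ∈ vC Set.univ t := by
        by_cases h2 : z ∈ X
        exacts [sub _ hX h2, sub _ hY (by tauto)]
      filter_upwards [ev_seq ht (fun _ => z) fun _ => h2] with b l1 h3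
      have h4 : z ∈ X ∩ vC Set.univ b ↔ z ∈ Y ∩ vC Set.univ b := by rw [h3]
      rw [mem_inter, mem_inter, and_iff_left (l1 0), and_iff_left (l1 0)] at h4
      exact absurd h4 hz
  have s2 : ∀ᶠ b in cf t un, ∀ U, InP u b U → ∀ X, InP u b X → ∀ i ∈ b,
      (∀ z ∈ vC Set.univ b, z ∈ X ↔ pair i z ∈ U) → ∀ z, z ∈ X ↔ pair i z ∈ U :=
    ev_inP ht hu fun U hU => ev_inP ht hu fun X hX => ev_diag ht fun i _ => by
      by_cases h : ∀ z, z ∈ X ↔ pair i z ∈ U
      · exact Eventually.of_forall fun _ _ => h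
      obtain ⟨z, hz⟩ := not_forall.1 h
      have h2 : z ∈ vC Set.univ t := by
        by_cases h2 : z ∈ X
        exacts [sub _ hX h2, ((pair_vC (x := i) ht.1 fun b hb => un.succ hb).1
          (sub _ hU (by tauto))).2]
      filter_upwards [ev_seq ht (fun _ => z) fun _ => h2] with L l1 h3 using
        absurd (h3 z (l1 0)) hz
  filter_upwards [ev_mem un, ev_lim un ht, hT, h1, s0, s2] with b l0 l1 l2 l3 l4 l5
  refine ⟨l0.1, l1, fun A hA => ?_, fun X Y hX hY => l4 X hX Y hY,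
    fun U X hU hX => l5 U hU X hX⟩
  obtain ⟨x, x1, x2⟩ := l2 A hA
  exact ⟨_, l3 x x1, x2⟩

end Pool.Agent.MP_ecfd11_lc.H13U
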