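import Pool.Agent.MP_ecfd11_lc.H13U.Base

/-!
Few atoms, and gluing along an atom.
-/

set_option synthInstance.maxSize 4000

namespace Pool.Agent.MP_ecfd11_lc.H13U

open Pool.Agent.MP_ecfd11_lc.H20 Pool.Agent.MP_ecfd11_lc.H13X Pool.Agent.MP_ecfd11_lc.H3U
  Pool.Agent.MP_ecfd11_lc.H3E Pool.Agent.MP_ecfd11_lc.H13F Pool.Agent.MP_ecfd11_lc.H65S

universe u

open ZFSet Cardinal Function Filter

variable {d e t u A : ZFSet.{u}}

theorem atoms (hd : StronglyCompact d t) (hdt : d ∈ t) (hs : StronglyMeasurable Set.univ t)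
    {a : ZFSet.{u}} (ha : a ∈ t) (hg : H57F.Gap d a) :
    ∃ Z : ZFSet.{u}, card Z ≤ card a ∧ (∀ A ∈ Z, Atom d t A) ∧
      ∀ᶠ b in cf t (unc_of_regular hs.1), Sm d b → ∃ A ∈ Z, b ∈ A := by
  have ht := hs.1
  have hu := unc_of_regular ht
  have hr := hd.refl hdt ht
  have : Tm Set.univ On (fun _ => t) := Tm.ofOrd ht.1
  have : Tm Set.univ On (fun _ => d) := Tm.ofOrd hd.1.1
  obtain ⟨A, hA⟩ : ∃ A, A = (powerset t).sep fun S => Atom d t S := ⟨_, rfl⟩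
  have : Tm Set.univ On (fun _ => A) := hA ▸ inferInstance
  have a1 : ∀ S, S ∈ A ↔ Atom d t S := fun S => by
    rw [hA, mem_sep, mem_powerset]
    exact and_iff_right_of_imp fun h y hy => (h.2.1 y hy).1
  obtain ⟨k, k0, k1, k2⟩ := od_enum (X := A) (od_iff.2 this) fun S hS => ((a1 S).1 hS).1
  have := Tm.one (C := Set.univ) (A := On) k
  have ko : ∀ S ∈ A, (k S).IsOrdinal := fun S hS => k1.mem (mem_img.2 ⟨S, hS, rfl⟩)
  obtain ⟨Z, hZ⟩ : ∃ Z, Z = A.sep fun S => ∀ S', S' ∈ A → k S' ∈ k S → Null t (S ∩ S') :=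
    ⟨_, rfl⟩
  have : Tm Set.univ On (fun _ => Z) := hZ ▸ inferInstance
  have z1 : ∀ S, S ∈ Z ↔ S ∈ A ∧ ∀ S' ∈ A, k S' ∈ k S → Null t (S ∩ S') := fun S => by
    rw [hZ, mem_sep]
  have z2 : card Z ≤ card a := by
    obtain ⟨r, r0, r1, r2⟩ := od_enum (X := Z) (od_iff.2 this)
      fun S hS => ((a1 S).1 ((z1 S).1 hS).1).1
    have h1 := H57F.sat_bd hd.1 hr hu hg
    have ao := ht.1.mem ha
    have : Tm Set.univ On (fun _ => a) := Tm.ofOrd ao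
    refine (card_le_of_inj r (fun x hx => mem_img.2 ⟨x, hx, rfl⟩) r2).trans
      (card_mono (ao.subset_of_mem ((r1.mem_or_subset ao).resolve_right fun h2 => ?_)))
    obtain ⟨F, f0, f1, f2⟩ := DInj.inv (C := Set.univ) (b := a) r r2 fun y hy => mem_img.1 (h2 hy)
    have := Tm.one (C := Set.univ) (A := On) F
    refine h1 (fun i => (F i).sep fun y => ∀ j, j ∈ a → j ≠ i → y ∉ F j) inferInstance
      (fun i hi => ?_) fun i hi j hj y y1 y2 => by_contra fun e =>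
        (mem_sep.1 y2).2 i hi e (mem_sep.1 y1).1
    obtain ⟨i1, i2⟩ := (z1 _).1 (f1 i hi)
    have i3 := (a1 _).1 i1
    refine ⟨fun y hy => (i3.2.1 y (mem_sep.1 hy).1).2, (fr_iff hu).1
      (have := neBot hu i3.2.2.1; Eventually.frequently (ev_ball ht (ht.card_lt ha)
        fun j hj => ?_))⟩
    by_cases e : j = i
    · exact Eventually.of_forall fun _ h => absurd e h
    obtain ⟨j1, j2⟩ := (z1 _).1 (f1 j hj)
    have h3 : Null t (F i ∩ F j) := by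
      rcases (ko _ i1).mem_trichotomous (ko _ j1) with h | h | h
      · exact (j2 _ i1 h).mono fun x hx _ =>
          mem_inter.2 ⟨(mem_inter.1 hx).2, (mem_inter.1 hx).1⟩
      · exact absurd (f2 j hj i hi (k2 _ j1 _ i1 h.symm)) e
      · exact i2 _ j1 h
    exact (ev_iff hu).2 (h3.mono fun x hx _ => mem_inter.2 ⟨(mem_sep.1 hx).1,
      by_contra fun h => (mem_sep.1 hx).2 fun _ => h⟩)
  have z3 : ∀ᶠ L in cf (t.sep (Sm d)) hu, L ∈ (⋃₀ Z : ZFSet.{u}) := by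
    by_contra h1
    obtain ⟨S, s1, s2⟩ := exists_atom hd.1 hdt hr hs
      (S := (t.sep fun L => Sm d L).sep fun L => ¬ L ∈ (⋃₀ Z : ZFSet.{u}))
      (od_iff.2 inferInstance) (fun y hy => mem_sep.1 (mem_sep.1 hy).1) h1
    obtain ⟨R, ⟨r1, r2⟩, r3⟩ := (InvImage.wf k mem_wf).has_min {R | R ∈ A ∧ ¬ Null t (R ∩ S)}
      ⟨S, (a1 S).2 s1, fun h =>
        s1.2.2.1 (h.mono fun x hx _ => mem_inter.2 ⟨hx, hx⟩)⟩
    have r4 : R ∈ Z := (z1 R).2 ⟨r1, fun R' h2 h3 => (hu.null_union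
      ((((a1 R).1 r1).2.2.2 S s1.1).resolve_left r2)
      (by_contra fun h4 => r3 R' ⟨h2, h4⟩ h3 : Null t (R' ∩ S))).mono fun x hx _ => by
        simp only [mem_inter, mem_union, ZFSet.mem_sdiff] at hx ⊢
        tauto⟩
    obtain ⟨x, x1, -⟩ := exists_not_null r2 hu.null_empty
    exact (mem_sep.1 (s2 (mem_inter.1 x1).2)).2 (mem_sUnion.2 ⟨R, r4, (mem_inter.1 x1).1⟩)
  refine ⟨Z, z2, fun S hS => (a1 S).1 ((z1 S).1 hS).1, (ev_iff hu).2
    (((ev_iff hu).1 z3).mono fun x hx hx' => ?_)⟩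
  obtain ⟨x1, x2⟩ := Classical.not_imp.1 (mem_sep.1 hx).2
  exact mem_sep.2 ⟨mem_sep.2 ⟨hx', x1⟩, fun h => x2 (mem_sUnion.1 h)⟩

theorem glue (ht : Regular Set.univ t) (hA : Atom e t A) (hu : En t (Lev t) u)
    (H : ZFSet.{u} → ZFSet.{u}) [Tm Set.univ On (fun v => H (v 0))] :
    ∃ W, ∀ᶠ b in cf t (unc_of_regular ht), b ∈ A → Gd t u b → H b ⊆ Lev b →
      pull u b W = H b := by
  have hn := unc_of_regular ht
  have := Tm.one (C := Set.univ) (A := On) H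
  have h1 : ∀ᶠ b in cf A hn, ∀ X, InP u b X →
      (X ∈ (Lev t).sep (fun X => ∀ᶠ b in cf A hn, X ∩ vC Set.univ b ∈ H b) ↔
        X ∩ vC Set.univ b ∈ H b) := ev_inP ht hu fun X hX => by
    have := hod_tm ((mem_Lev ht.1).1 hX).2
    by_cases h : ∀ᶠ b in cf A hn, X ∩ vC Set.univ b ∈ H b
    · exact h.mono fun b hb => iff_of_true (mem_sep.2 ⟨hX, h⟩) hb
    · exact ((ev_or hn (hA.na ht) fun b => X ∩ vC Set.univ b ∈ H b).resolve_left h).mono
        fun b hb => iff_of_false (fun h' => h (mem_sep.1 h').2) hb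
  refine ⟨(Lev t).sep fun X => ∀ᶠ b in cf A hn, X ∩ vC Set.univ b ∈ H b, (ev_iff hn).2
    (((ev_iff hn).1 h1).mono fun b hb _ => ?_)⟩
  have h2 := (mem_sep.1 hb).2
  simp only [not_forall] at h2
  obtain ⟨b1, b2, b3, b4⟩ := h2
  refine mem_sep.2 ⟨b1, fun h3 => b4 (ZFSet.ext fun x => ⟨fun hx => ?_, fun hx => ?_⟩)⟩
  · obtain ⟨X, x1, x2, rfl⟩ := mem_pull.1 hx
    exact (h3 X x2).1 x1
  · obtain ⟨X, x1, rfl⟩ := b2.tr x (b3 hx)
    exact mem_pull.2 ⟨X, (h3 X x1).2 hx, x1, rfl⟩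

end Pool.Agent.MP_ecfd11_lc.H13U
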