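import Pool.Agent.MP_ecfd11_lc.H13U.Base

/-!
Realizers are computed below almost every point.
-/

set_option synthInstance.maxSize 4000

namespace Pool.Agent.MP_ecfd11_lc.H13U

open Pool.Agent.MP_ecfd11_lc.H20 Pool.Agent.MP_ecfd11_lc.H13X Pool.Agent.MP_ecfd11_lc.H3U
  Pool.Agent.MP_ecfd11_lc.H3E Pool.Agent.MP_ecfd11_lc.H13F Pool.Agent.MP_ecfd11_lc.H65S

universe u

open ZFSet Cardinal Function Filter

variable {b t u W W' : ZFSet.{u}}

theorem ev_least (ht : Regular Set.univ t) (u W : ZFSet.{u}) :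
    ∀ᶠ b in cf t (unc_of_regular ht), ∀ a ∈ b, ∀ p ∈ t, Rz u a W p →
      ∃ q ∈ b, q ⊆ p ∧ Rz u a W q := ev_diag ht fun a _ => by
  by_cases h : ∃ p ∈ t, Rz u a W p
  · obtain ⟨p, p1, p2⟩ := h
    obtain ⟨q, ⟨q1, q2⟩, q3⟩ := exists_min_mem (p := fun q => q ∈ t ∧ Rz u a W q) (x := p) ⟨p1, p2⟩
    filter_upwards [ev_above (unc_of_regular ht) q1] with b hb r r1 r2
    exact ⟨q, hb, ((ht.1.mem r1).mem_or_subset (ht.1.mem q1)).resolve_left fun h =>
      q3 r h ⟨r1, r2⟩, q2⟩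
  · exact Eventually.of_forall fun b p p1 p2 => absurd ⟨p, p1, p2⟩ h

theorem loc (ht : Regular Set.univ t) (hu : En t (Lev t) u) (W W' : ZFSet.{u}) :
    ∀ᶠ b in cf t (unc_of_regular ht), Gd t u b → ∀ a ∈ b,
      (Gam t u W W' a ↔ Gam b (tru u b) (pull u b W) (pull u b W') a) := by
  filter_upwards [ev_least ht u W, ev_least ht u W'] with b h1 h2 h a ha
  have bo := ht.1.mem h.mem
  have hs := bo.subset_of_mem ha
  constructor
  · rintro ⟨p, p1, p2, p3⟩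
    obtain ⟨q, q1, q2, q3⟩ := h1 a ha p p1 p2
    refine ⟨q, q1, (h.rz ht.1 hu hs q1).2 q3, fun r r1 r2 => ?_⟩
    exact (bo.mem q1).mem_of_subset_of_mem (bo.mem r1) q2
      (p3 r (ht.1.mem_trans r1 h.mem) ((h.rz ht.1 hu hs r1).1 r2))
  · rintro ⟨p, p1, p2, p3⟩
    refine ⟨p, ht.1.mem_trans p1 h.mem, (h.rz ht.1 hu hs p1).1 p2, fun r r1 r2 => ?_⟩
    obtain ⟨q, q1, q2, q3⟩ := h2 a ha r r1 r2
    exact q2 (p3 q q1 ((h.rz ht.1 hu hs q1).2 q3))

theorem Gd.apx (ht : t.IsOrdinal) (hu : En t (Lev t) u) (h : Gd t u b) {p : ZFSet.{u}}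
    (hp : p ∈ t) (h1 : Rz u b W p) : Apx b (Lev b) (H3E.pull u b W) := by
  intro Y y0 y1 y2
  have bo := ht.mem h.mem
  obtain ⟨k, k0, k1, k2⟩ := od_enum y0.self fun x hx => (y0.mem hx).self
  have := Tm.one (C := Set.univ) (A := On) k
  have := hod_tm y0
  have hk : img k Y ∈ b := H46.mem_of_card_lt k1 bo ((card_img_le _ _).trans_lt (not_le.1 y2))
  have hF : ∀ x ∈ Y, ⋃₀ (Y.sep fun z => k z = k x) = x := fun x hx => by
    rw [show (Y.sep fun z => k z = k x) = {x} from ZFSet.ext fun z => by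
      rw [mem_sep, mem_singleton]
      exact ⟨fun h => k2 z h.1 x hx h.2, fun e => e.symm ▸ ⟨hx, rfl⟩⟩, sUnion_singleton]
  have hF' : ∀ i, ⋃₀ (Y.sep fun z => k z = i) ∈ Lev b := fun i => by
    by_cases hi : ∃ x ∈ Y, k x = i
    · obtain ⟨x, h3, rfl⟩ := hi
      rw [hF x h3]
      exact y1 h3
    · rw [show (Y.sep fun z => k z = i) = ∅ from (eq_empty _).2 fun z hz => hi ⟨z, mem_sep.1 hz⟩,
        sUnion_empty]
      exact (mem_Lev bo).2 ⟨empty_subset _, hod_ord isOrdinal_empty⟩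
  obtain ⟨U, u1, u2⟩ := h.code ht (g := gr (fun i => ⋃₀ (Y.sep fun z => k z = i)) b)
    (hod_grA (hod_ord bo) _ fun i _ => ((mem_Lev bo).1 (hF' i)).2) (isFunc_gr fun i _ => hF' i)
  have := hod_tm ((mem_Lev ht).1 (inP_mem hu u1)).2
  have : Tm Set.univ On (fun _ => p) := Tm.ofOrd (ht.mem hp)
  have e : H3E.pull u b W ∩ Y = Y.sep fun x => pair (k x) p ∈ U := ZFSet.ext fun x => by
    rw [mem_inter, mem_sep, and_comm]
    refine and_congr_right fun hx => ?_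
    have h3 : k x ∈ b := bo.mem_trans (mem_img.2 ⟨x, hx, rfl⟩) hk
    obtain ⟨X, x1, x2⟩ := h.tr x (y1 hx)
    rw [← h.s2 U X u1 x1 _ h3 (fun z hz => by
      rw [← u2 _ h3 z hz, app_gr h3, hF x hx, x2, mem_inter, and_iff_left hz]) p, ← h1 X x1, x2,
      h.pull x1]
  exact hod_sub y0 (fun _ hz => (mem_inter.1 hz).2) (od_iff.2 (e ▸ inferInstance))

end Pool.Agent.MP_ecfd11_lc.H13U
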