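import Pool.Agent.MP_ecfd11_lc.H13U.Base

/-!
The case that some cardinal is not strongly measurable.
-/

set_option synthInstance.maxSize 4000

namespace Pool.Agent.MP_ecfd11_lc.H13U

open Pool.Agent.MP_ecfd11_lc.H20 Pool.Agent.MP_ecfd11_lc.H13X Pool.Agent.MP_ecfd11_lc.H3U
  Pool.Agent.MP_ecfd11_lc.H3E Pool.Agent.MP_ecfd11_lc.H13F Pool.Agent.MP_ecfd11_lc.H65S

universe u

open ZFSet Cardinal Function Filter

variable {d s t W g l : ZFSet.{u}}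

theorem near_hod (hd : Extendible d) (ht : Regular Set.univ t) (hdt : d ⊆ t)
    (hs : Regular Set.univ s) (hds : d ⊆ s) (hn : ¬ StronglyMeasurable Set.univ s)
    (hW : K t W) : HOD Set.univ W := by
  have x0 := hod_Lev ht.1
  obtain ⟨o, H⟩ := near hd hs hds hn x0.self (fun z hz => (x0.mem hz).self)
    ⟨∅, (mem_Lev ht.1).2 ⟨empty_subset _, hod_ord isOrdinal_empty⟩⟩
  obtain ⟨k, k0, k1⟩ : ∃ k : ZFSet.{u}, k.IsOrdinal ∧ card (Lev t) ≤ card k :=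
    ⟨_, isOrdinal_toZFSet (card (Lev t)).ord, (card_ord' _).ge⟩
  obtain ⟨F, f1⟩ := exists_surj_of_card_le k1
  obtain ⟨m, n, j, h0, e⟩ := hd.xe (max o (max k.rank (max t.rank (Lev t).rank)))
  simp only [max_lt_iff] at h0
  obtain ⟨R, r0, r1⟩ := H e h0.1
  have l0 : k ∈ V_ m := mem_vonNeumann.2 h0.2.1
  have l1 : t ∈ V_ m := mem_vonNeumann.2 h0.2.2.1
  have l2 : Lev t ∈ V_ m := mem_vonNeumann.2 h0.2.2.2
  have l3 := sub_V l2 hW.1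
  obtain ⟨p, p1, p2⟩ := e.tfA3 (fun t X W g => ∀ a, a ∈ t → Sv g →
    (∀ x y, pair x y ∈ g → x ∈ a ∧ y ∈ X) →
      ∃ p, p ∈ t ∧ ∀ x y, pair x y ∈ g → (y ∈ W ↔ p ∈ y)) l1 l2 l3
    (fun g _ a ha g1 g2 => by
      obtain ⟨p, p1, p2⟩ := hW.2 (img (app g) a ∩ Lev t) (fun z hz => (mem_inter.1 hz).2)
        (((card_mono fun z hz => (mem_inter.1 hz).1).trans (card_img_le _ _)).trans_lt
          (ht.card_lt ha)).not_ge
      exact ⟨p, p1, fun x y h1 => p2 y (mem_inter.2 ⟨mem_img.2 ⟨x, (g2 x y h1).1,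
        app_eq h1 (g1 x y h1)⟩, (g2 x y h1).2⟩)⟩)
    (gr (fun x => j (F x)) (k.sep fun x => F x ∈ Lev t))
    (gr_V e.lim' (e.le (sub_V l0 sep_subset)) (e.map _ l2)
      fun a ha => e.jmem (mem_sep.1 ha).2 l2) k (e.jsub hdt l1 (e.mem_jd k0 l0)) (sv_gr _ _)
    fun a y h1 => ⟨(mem_sep.1 (pair_mem_gr.1 h1).1).1,
      (pair_mem_gr.1 h1).2 ▸ e.jmem (mem_sep.1 (pair_mem_gr.1 h1).1).2 l2⟩
  have : Tm Set.univ On (fun _ => p) := Tm.ofOrd ((e.jord ht.1 l1).mem p1)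
  have := od_iff.1 r0
  have := hod_tm x0
  have y4 : ∀ z ∈ Lev t, p ∈ j z ↔ z ∈ W := fun z hz => by
    obtain ⟨x, x1, rfl⟩ := f1 z hz
    rw [← p2 x _ (pair_mem_gr.2 ⟨mem_sep.2 ⟨x1, hz⟩, rfl⟩), e.mem_iff (mem_V hz l2) l3]
  refine hod_sub x0 hW.1 (od_iff.2 (Tm.of
    (fun _ => (Lev t).sep fun z => ∃ w, pair z w ∈ R ∧ p ∈ w) inferInstance
    fun _ _ => ZFSet.ext fun z => ?_))
  rw [mem_sep]
  exact ⟨fun ⟨h1, w, h2, h3⟩ => (y4 z h1).1 ((r1 z h1 w).1 h2 ▸ h3),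
    fun hz => ⟨hW.1 hz, _, (r1 z (hW.1 hz) _).2 rfl, (y4 z (hW.1 hz)).2 hz⟩⟩

theorem exists_sc_above (hd : Extendible d) (hl : l.IsOrdinal) (hg : g ∈ d) (ho : om ⊆ g) :
    ∃ e ∈ d, g ∈ e ∧ StronglyCompact e l := by
  obtain ⟨m, n, j, h1, h⟩ := hd.xe l.rank
  have d0 : V_ d.rank ∈ V_ m := mem_vonNeumann.2 (by
    rw [rank_vonNeumann]; exact mem_vonNeumann.1 h.mem)
  have hr := h.jreg h.regular h.mem
  have hk : ∀ a < (j d).rank, Order.succ a < (j d).rank := fun a ha => by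
    obtain ⟨b, b1, b2⟩ := (unc_of_regular hr).succ (mem_of_rank hr.1 ha)
    have := rank_lt_of_mem b2
    rw [Ordinal.rank_toZFSet] at this
    exact (Order.succ_le_of_lt this).trans_lt (rank_lt_of_mem b1)
  have d1 := h.mem_jd h.ord h.mem
  obtain ⟨e, e1, e2, e3⟩ := (h.tf3 (fun N t o => ∃ e, e ∈ t ∧ o ∈ e ∧ ∀ l, l ∈ t → ScI N e l)
    d0 h.mem (mem_V hg h.mem)).2 ⟨d, d1, by rw [h.fix _ hg]; exact hg,
      fun l hl => by
        rw [h.jV h.ord h.mem]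
        exact scI_of_sc (hd.sc (hr.1.mem hl)) hk (ord_mem_V d1) (ord_mem_V hl)⟩
  have l1 := h.mem_jd hl (mem_vonNeumann.2 h1)
  have h2 := (h.tf3 (fun N t e => ∀ l, l ∈ t → ScI N e l) d0 h.mem (mem_V e1 h.mem)).1 e3 l l1
  rw [h.fix e e1, h.jV h.ord h.mem] at h2
  have e4 : om ∈ e := (isOrdinal_toZFSet _).mem_of_subset_of_mem (h.ord.mem e1) ho e2
  exact ⟨e, e1, e2, h2.sc e4 (ord_mem_V (hr.1.mem_trans e1 d1)) (ord_mem_V l1)
    (isTransitive_vonNeumann _) (fun _ hx _ hy => sub_V hx hy) (fun _ hx => pow_V hk hx)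
    fun _ hx _ hy => prod_V hk hx hy⟩

end Pool.Agent.MP_ecfd11_lc.H13U
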