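import Pool.Agent.MP_ecfd11_lc.H13U.Base

/-!
Sets with realizers are in HOD if antichains are small.
-/

set_option synthInstance.maxSize 4000

namespace Pool.Agent.MP_ecfd11_lc.H13U

open Pool.Agent.MP_ecfd11_lc.H20 Pool.Agent.MP_ecfd11_lc.H13X Pool.Agent.MP_ecfd11_lc.H3U
  Pool.Agent.MP_ecfd11_lc.H3E Pool.Agent.MP_ecfd11_lc.H13F Pool.Agent.MP_ecfd11_lc.H65S

universe u

open ZFSet Cardinal Function Filter

variable {n S v c w : ZFSet.{u}}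

theorem rz_min (hn : Unc n) (C : ZFSet.{u} → Prop) [Df Set.univ On (fun v => C (v 0))]
    (hc : Can C n v) (hv : ∀ x ∈ Lev n, ∃ a ∈ n, InP v a x) (s0 : OD Set.univ S)
    (s1 : ¬ Null n S) {F : ZFSet.{u}} (hF : OD Set.univ F)
    (h1 : ∀ w ∈ F, w ⊆ Lev n ∧ Apx n (Lev n) w ∧ ∀ a ∈ n, ∃ p ∈ n, Rz v a w p)
    (h2 : ∀ M, M ⊆ F → (∀ x ∈ M, ∀ y ∈ M, x ≠ y → ∃ᶠ a in cf S hn, Gam n v x y a) →
      2 ^ card M < card n) : ∀ w ∈ F, HOD Set.univ w := by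
  have := Df.one (C := Set.univ) (A := On) C
  have := od_iff.1 hF
  have := od_iff.1 s0
  have : Tm Set.univ On (fun _ => n) := Tm.ofOrd hn.1
  have := neBot (S := S) hn s1
  have g1 : ∀ x ∈ F, ∀ y ∈ F, ∀ a ∈ n, Gam n v x y a ↔
      leastBy n (fun x => x) (Rz v a x) ∈ leastBy n (fun x => x) (Rz v a y) :=
    fun x hx y hy a ha => lemA_lt hn.1 ((h1 x hx).2.2 a ha) ((h1 y hy).2.2 a ha)
  have g2 : ∀ x y, (∃ w, C w ∧ Null n (S.sep fun a => ¬ Gam n w x y a)) ↔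
      ∀ᶠ a in cf S hn, Gam n v x y a := fun x y =>
    ⟨fun ⟨w, w1, w2⟩ => (ev_iff hn).2 ((hn.null_union w2 (hc.2 w w1)).mono fun a a1 a2 =>
      mem_union.2 (or_iff_not_imp_right.2 fun h => mem_sep.2 ⟨(mem_sep.1 a1).1, fun h' =>
        (mem_sep.1 a1).2 ((gam_congr (not_not.1 fun h'' => h (mem_sep.2 ⟨a2, h''⟩))).1 h')⟩)),
      fun h => ⟨v, hc.1, (ev_iff hn).1 h⟩⟩
  have wf : WellFounded fun x y => x ∈ F ∧ y ∈ F ∧ ∀ᶠ a in cf S hn, Gam n v x y a := by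
    rw [wellFounded_iff_isEmpty_descending_chain]
    refine ⟨fun ⟨G, hG⟩ => ?_⟩
    obtain ⟨i, hi, i1⟩ := ((ev_nat (S := S) hn (p := fun m i => Gam n v (G (m + 1)) (G m) i)
      fun m => (hG m).2.2).and (ev_mem hn)).exists
    exact (wellFounded_iff_isEmpty_descending_chain.1 mem_wf).false
      ⟨fun m => leastBy n (fun x => x) (Rz v i (G m)),
        fun m => (g1 _ (hG m).1 _ (hG m).2.1 i i1.2).1 (hi m)⟩
  intro t ht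
  by_contra h0
  obtain ⟨z, ⟨w1, w2⟩, w3⟩ := wf.has_min {t | t ∈ F ∧ ¬ HOD Set.univ t} ⟨t, ht, h0⟩
  obtain ⟨M, hM⟩ : ∃ M, M = F.sep fun t => ¬ HOD Set.univ t ∧ ∀ s, s ∈ F → ¬ HOD Set.univ s →
    ¬ ∃ w, C w ∧ Null n (S.sep fun a => ¬ Gam n w s t a) := ⟨_, rfl⟩
  have m1 : ∀ x ∈ M, x ∈ F := fun x hx => (mem_sep.1 (hM ▸ hx)).1
  refine w2 (small_fam (a := n) (F := M) (hod_Lev hn.1) (by rw [hM]; exact od_iff.2 inferInstance)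
    (fun x hx => (h1 x (m1 x hx)).1) (h2 M m1 fun y hy x hx e => ?_)
    (hM ▸ mem_sep.2 ⟨w1, w2, fun s s1 s2 s3 => w3 s ⟨s1, s2⟩ ⟨s1, w1, (g2 s z).1 s3⟩⟩)
    (h1 z w1).2.1)
  have x3 := (mem_sep.1 (hM ▸ hy : y ∈ _)).2.2 x (m1 x hx) (mem_sep.1 (hM ▸ hx : x ∈ _)).2.1
  rw [g2] at x3
  obtain ⟨A, hA⟩ : ∃ A, ¬ (A ∈ y ↔ A ∈ x) := not_forall.1 fun h => e (ZFSet.ext h)
  obtain ⟨a, a1, a2⟩ := hv A (by_contra fun h =>
    hA ⟨fun h' => absurd ((h1 y (m1 y hy)).1 h') h, fun h' => absurd ((h1 x (m1 x hx)).1 h') h⟩)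
  refine ((not_eventually.1 x3).and_eventually ((ev_above hn a1).and (ev_mem hn))).mono
    fun i ⟨i1, i2, _, i4⟩ => ?_
  obtain ⟨p1, p2⟩ := leastBy_id hn.1 ((h1 x (m1 x hx)).2.2 i i4)
  obtain ⟨q1, q2⟩ := leastBy_id hn.1 ((h1 y (m1 y hy)).2.2 i i4)
  have h3 := inP_mono ((hn.1.mem i4).subset_of_mem i2) a2
  rcases (hn.1.mem q1).mem_trichotomous (hn.1.mem p1) with h | h | h
  exacts [(g1 y (m1 y hy) x (m1 x hx) i i4).2 h,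
    absurd ((q2 A h3).trans (h ▸ (p2 A h3).symm)) hA,
    absurd ((g1 x (m1 x hx) y (m1 y hy) i i4).2 h) i1]

theorem rz_low (hn : Unc n) (C : ZFSet.{u} → Prop) [Df Set.univ On (fun v => C (v 0))]
    (hc : Can C n v) (hv : ∀ x ∈ Lev n, ∃ a ∈ n, InP v a x)
    (c1 : Club n c) (c2 : 2 ^ (2 : Cardinal.{u}) ^ max ℵ₀ (card c) < card n)
    (w1 : w ⊆ Lev n) (w2 : Apx n (Lev n) w) (w3 : ∀ a ∈ n, ∃ p ∈ n, Rz v a w p) :
    HOD Set.univ w := by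
  have := Df.one (C := Set.univ) (A := On) C
  have : Tm Set.univ On (fun _ => n) := Tm.ofOrd hn.1
  have := hod_tm (hod_Lev hn.1)
  have s1 : ¬ Null n n := fun ⟨e, e1, e2⟩ => by
    obtain ⟨x, x1, -⟩ := e1.2.1 _ hn.empty_mem
    exact e2 x (e1.1 x1) x1
  have := neBot (S := n) hn s1
  obtain ⟨F, hF⟩ : ∃ F, F = (powerset (Lev n)).sep fun x => Apx n (Lev n) x ∧
    ∃ u, C u ∧ ∀ a, a ∈ n → ∃ p, p ∈ n ∧ Rz u a x p := ⟨_, rfl⟩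
  have f1 : ∀ x ∈ F, x ⊆ Lev n ∧ Apx n (Lev n) x ∧ ∀ a ∈ n, ∃ p ∈ n, Rz v a x p := fun x hx => by
    obtain ⟨x1, x2, u, u1, u2⟩ := mem_sep.1 (hF ▸ hx)
    refine ⟨mem_powerset.1 x1, x2, fun a ha => ?_⟩
    obtain ⟨b, b1, b2, -, b3⟩ := (((ev_iff (S := n) hn).2 (hc.2 u u1)).and
      ((ev_above hn ha).and (ev_mem hn))).exists
    obtain ⟨p, p1, p2⟩ := u2 b b3
    exact ⟨p, p1, fun y hy => p2 y ((b1 y).2 (inP_mono ((hn.1.mem b3).subset_of_mem b2) hy))⟩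
  refine rz_min hn C hc hv (od_iff.2 inferInstance) s1 (F := F)
    (by rw [hF]; exact od_iff.2 inferInstance) f1 (fun M m1 m2 => (power_le_power_left two_ne_zero
      (er M c (fun x a => leastBy n (fun x => x) (Rz v a x)) (fun x hx a ha => hn.1.mem
        (leastBy_id hn.1 ((f1 x (m1 hx)).2.2 a (c1.1 ha))).1) fun x hx y hy e => ?_)).trans_lt c2)
    w (hF ▸ mem_sep.2 ⟨mem_powerset.2 w1, w2, v, hc.1, w3⟩)
  obtain ⟨a, a1, a2⟩ := ((m2 y hy x hx e.symm).and_eventually (ev_club hn c1)).exists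
  exact ⟨a, a2, (lemA_lt hn.1 ((f1 y (m1 hy)).2.2 a (c1.1 a2))
    ((f1 x (m1 hx)).2.2 a (c1.1 a2))).1 a1⟩

end Pool.Agent.MP_ecfd11_lc.H13U
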