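import Pool.Agent.MP_ecfd11_lc.H13U.Base

/-!
The traces form a canonical filtration.
-/

set_option synthInstance.maxSize 4000

namespace Pool.Agent.MP_ecfd11_lc.H13U

open Pool.Agent.MP_ecfd11_lc.H20 Pool.Agent.MP_ecfd11_lc.H13X Pool.Agent.MP_ecfd11_lc.H3U
  Pool.Agent.MP_ecfd11_lc.H3E Pool.Agent.MP_ecfd11_lc.H13F Pool.Agent.MP_ecfd11_lc.H65S

universe u

open ZFSet Cardinal Function Filter

variable {g b t u v X : ZFSet.{u}}

theorem ev_close {S : ZFSet.{u}} (hb : Unc b) (q : ZFSet.{u} → ZFSet.{u} → Prop)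
    (h1 : ∀ a ∈ b, ∃ c ∈ b, q a c) (h2 : ∀ y ∈ b, ∀ x ∈ y, ∀ c, q y c → q x c) :
    ∀ᶠ L in cf S hb, ∀ a ∈ L, ∃ c ∈ L, q a c := by
  have h3 : ∀ a ∈ b, ∃ n ∈ b, a ∈ n ∧ ∃ c ∈ n, q a c := fun a ha => by
    obtain ⟨c, c1, c2⟩ := h1 a ha
    obtain ⟨n, n1, n2, n3⟩ := exists_bound2 hb.1 (hb.succ_mem ha) (hb.succ_mem c1)
    exact ⟨n, n1, n2 (mem_insert _ _), c, n3 (mem_insert _ _), c2⟩
  choose! N n1 n2 n3 using h3
  have h4 : Club b (b.sep fun L => ∀ a ∈ L, ∃ c ∈ L, q a c) := by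
    refine ⟨sep_subset, fun x hx => ?_, fun e he _ h => mem_sep.2 ⟨he, fun a ha => ?_⟩⟩
    · obtain ⟨e, e1, e2, e3⟩ := hb.exists_closed N (fun x hx => ⟨n1 x hx, n2 x hx⟩) hx
      refine ⟨e, mem_sep.2 ⟨e1, fun a ha => ?_⟩, e2⟩
      obtain ⟨y, y1, y2, y3⟩ := e3 a ha
      have y4 := hb.1.mem_trans y1 e1
      obtain ⟨c, c1, c2⟩ := n3 y y4
      exact ⟨c, (hb.1.mem e1).mem_trans c1 y3, h2 y y4 a y2 c c2⟩
    · obtain ⟨x, x1, x2, x3⟩ := h a ha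
      obtain ⟨c, c1, c2⟩ := (mem_sep.1 x1).2 a x2
      exact ⟨c, (hb.1.mem he).mem_trans c1 x3, c2⟩
  filter_upwards [ev_club hb h4] with L hL using (mem_sep.1 hL).2

theorem Ni.le {w : ZFSet.{u}} (hb : Unc b) (hg : BdK g b) (hv : Ni g b X v) (hw : Ni g b X w) :
    ∀ᶠ L in cf b hb, ∀ x, InP v L x → InP w L x := by
  have h1 : ∀ a ∈ b, ∃ c ∈ b, ∀ x, InP v (insert a a) x → InP w c x := fun a ha => by
    obtain ⟨H, h1, h2, h3⟩ := hv.2.1 _ (hb.succ_mem ha)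
    have h4 : ∀ h ∈ H, ∃ c ∈ b, ∀ i ∈ b, InP v (insert a a) (app h i) → InP w c (app h i) :=
      fun h hh => by
        obtain ⟨c, c1, -, c2⟩ := hv.2.2 h (h2 h hh).1 (h2 h hh).2 _ (hb.succ_mem ha)
        obtain ⟨e, e1, e2, -⟩ := hw.2.2 h (h2 h hh).1 (h2 h hh).2 c c1
        refine ⟨e, e1, fun i hi h5 => ?_⟩
        obtain ⟨j, j1, j2⟩ := c2 i hi h5
        exact j2 ▸ e2 j j1
    choose! C c1 c2 using h4
    obtain ⟨c, c3, c4⟩ := hg (img C H) (fun z hz => by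
      obtain ⟨h, hh, rfl⟩ := mem_img.1 hz
      exact c1 h hh) ((card_img_le _ _).trans h1)
    refine ⟨c, c3, fun x hx => ?_⟩
    obtain ⟨h, hh, i, hi, h5⟩ := h3 x hx
    obtain rfl := (h2 h hh).2.app_eq h5
    exact inP_mono ((hb.1.mem c3).subset_of_mem (c4 _ (mem_img.2 ⟨h, hh, rfl⟩))) (c2 h hh i hi hx)
  filter_upwards [ev_close hb _ h1 fun y hy x hx c h z hz => h z (inP_mono (fun s hs =>
    mem_insert_of_mem _ ((mem_insert_iff.1 hs).elim (fun e => e ▸ hx)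
      fun h5 => (hb.1.mem hy).mem_trans h5 hx)) hz), ev_mem hb]
    with L l1 l2 x ⟨f, f1, i, i1, i2⟩
  obtain ⟨c, c1, c2⟩ := l1 i i1
  exact inP_mono ((hb.1.mem l2.2).subset_of_mem c1) (c2 x ⟨f, f1, i, mem_insert _ _, i2⟩)

theorem Ni.can (hb : Unc b) (hg : BdK g b) (hv : Ni g b X v) : Can (Ni g b X) b v :=
  ⟨hv, fun w hw => by
    refine (ev_iff (S := b) hb).1 ?_
    filter_upwards [hv.le hb hg hw, hw.le hb hg hv] with L h2 h3 x using ⟨h3 x, h2 x⟩⟩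

theorem small_enum (ht : t.IsOrdinal) {G : ZFSet.{u}} (h0 : HOD Set.univ G)
    (h1 : card G < card t) : ∃ h, (HOD Set.univ h ∧ IsFunc t (Lev t) h) ∧
      ∃ e ∈ t, ∀ x ∈ G, x ∈ Lev t → ∃ i ∈ e, app h i = x := by
  have hX := hod_inter h0 (hod_Lev ht).self
  obtain ⟨Y, hY⟩ : ∃ Y, Y = G ∩ Lev t := ⟨_, rfl⟩
  have y1 : ∀ x, x ∈ Y ↔ x ∈ G ∧ x ∈ Lev t := fun x => by rw [hY, mem_inter]
  rw [← hY] at hX
  obtain ⟨k, k0, k1, k2⟩ := od_enum hX.self fun x hx => (hX.mem hx).self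
  have := Tm.one (C := Set.univ) (A := On) k
  have := hod_tm hX
  have hk : img k Y ∈ t := H46.mem_of_card_lt k1 ht ((card_img_le _ _).trans_lt
    ((card_mono fun x hx => ((y1 x).1 hx).1).trans_lt h1))
  have hF : ∀ x ∈ Y, ⋃₀ (Y.sep fun z => k z = k x) = x := fun x hx => by
    rw [show (Y.sep fun z => k z = k x) = {x} from ZFSet.ext fun z => by
      rw [mem_sep, mem_singleton]
      exact ⟨fun h => k2 z h.1 x hx h.2, fun e => e.symm ▸ ⟨hx, rfl⟩⟩, sUnion_singleton]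
  have hF' : ∀ i, ⋃₀ (Y.sep fun z => k z = i) ∈ Lev t := fun i => by
    by_cases hi : ∃ x ∈ Y, k x = i
    · obtain ⟨x, h3, rfl⟩ := hi
      rw [hF x h3]
      exact ((y1 x).1 h3).2
    · rw [show (Y.sep fun z => k z = i) = ∅ from (eq_empty _).2 fun z hz => hi ⟨z, mem_sep.1 hz⟩,
        sUnion_empty]
      exact (mem_Lev ht).2 ⟨empty_subset _, hod_ord isOrdinal_empty⟩
  refine ⟨gr (fun i => ⋃₀ (Y.sep fun z => k z = i)) t, ⟨hod_grA (hod_ord ht) _ fun i _ =>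
    ((mem_Lev ht).1 (hF' i)).2, isFunc_gr fun i _ => hF' i⟩, _, hk, fun x x1 x2 => ?_⟩
  have h3 := (y1 x).2 ⟨x1, x2⟩
  have h4 : k x ∈ img k Y := mem_img.2 ⟨x, h3, rfl⟩
  exact ⟨k x, h4, by rw [app_gr (ht.mem_trans h4 hk), hF x h3]⟩

theorem sec_Lev (ht : t.IsOrdinal) {U i : ZFSet.{u}} (hU : U ∈ Lev t) (hi : i ∈ t) :
    ((vC Set.univ t).sep fun z => pair i z ∈ U) ∈ Lev t := by
  have h0 := ((mem_Lev ht).1 hU).2
  have := hod_tm h0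
  have : Tm Set.univ On (fun _ => t) := Tm.ofOrd ht
  have : Tm Set.univ On (fun _ => i) := Tm.ofOrd (ht.mem hi)
  exact (mem_Lev ht).2 ⟨sep_subset, hod_of (od_iff.2 inferInstance)
    fun z hz => hod_snd h0 (mem_sep.1 hz).2⟩

theorem ev_ni (ht : Regular Set.univ t) (hg : g ∈ t) (hc : Cvr (card g) t (Lev t))
    (hu : En t (Lev t) u) :
    ∀ᶠ b in cf t (unc_of_regular ht), Gd t u b → Ni g b (Lev b) (tru u b) := by
  have hn := unc_of_regular ht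
  have e0 : ∀ᶠ b in cf t hn, ∀ a ∈ b, ∃ H, card H ≤ card g ∧
      (∀ h ∈ H, HOD Set.univ h ∧ IsFunc t (Lev t) h) ∧
      ∀ x, InP u a x → ∃ h ∈ H, ∃ i ∈ b, app h i = x := ev_diag ht fun a ha => by
    obtain ⟨H, h1, h2, h3⟩ := hc _ sep_subset (card_inP ht hu ha)
    choose! f f1 e e1 e2 using fun G (hG : G ∈ H) => small_enum ht.1 (h2 G hG).1 (h2 G hG).2
    filter_upwards [ev_ball (S := t) ht (h1.trans_lt (ht.card_lt hg)) (p := fun G b => e G ∈ b)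
      fun G hG => ev_above hn (e1 G hG), ev_mem hn] with b b1 b2
    refine ⟨img f H, (card_img_le _ _).trans h1, fun h hh => ?_, fun x hx => ?_⟩
    · obtain ⟨G, hG, rfl⟩ := mem_img.1 hh
      exact f1 G hG
    · obtain ⟨G, g1, g2⟩ := h3 x (mem_sep.2 ⟨inP_mem hu hx, hx⟩)
      obtain ⟨i, i1, i2⟩ := e2 G g1 x g2 (inP_mem hu hx)
      exact ⟨_, mem_img.2 ⟨G, g1, rfl⟩, i, (ht.1.mem b2.2).mem_trans i1 (b1 G g1), i2⟩
  have e1 : ∀ᶠ b in cf t hn, ∀ U, InP u b U → ∀ a ∈ b, ∃ c ∈ b,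
      (∀ i ∈ a, InP u c ((vC Set.univ t).sep fun z => pair i z ∈ U)) ∧
      ∀ X, InP u a X → (∃ i ∈ t, X = (vC Set.univ t).sep fun z => pair i z ∈ U) →
        ∃ j ∈ c, X = (vC Set.univ t).sep fun z => pair j z ∈ U :=
    ev_inP ht hu fun U hU => ev_diag ht fun a ha => by
      choose! J j1 j2 using fun i (hi : i ∈ a) => hu.inP (sec_Lev ht.1 hU (ht.1.mem_trans hi ha))
      obtain ⟨c, c1, c2⟩ := ht.bddV (ht.card_lt ha) J j1
      have h1 : ∀ X : ZFSet.{u}, ∃ j ∈ t, (∃ i ∈ t, X = (vC Set.univ t).sep fun z => pair i z ∈ U) →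
          X = (vC Set.univ t).sep fun z => pair j z ∈ U := fun X => by
        by_cases h : ∃ i ∈ t, X = (vC Set.univ t).sep fun z => pair i z ∈ U
        · obtain ⟨i, i1, i2⟩ := h
          exact ⟨i, i1, fun _ => i2⟩
        · exact ⟨a, ha, fun h' => absurd h' h⟩
      choose I i1 i2 using h1
      obtain ⟨e, e1, e2⟩ := ht.bddV (card_inP ht hu ha) I fun X _ => i1 X
      obtain ⟨n, n1, n2, n3⟩ := exists_bound2 ht.1 c1 e1
      filter_upwards [ev_above hn n1] with b hb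
      exact ⟨n, hb, fun i hi => j2 i hi n (n2 (c2 i hi)), fun X hX h =>
        ⟨I X, n3 (e2 X (mem_sep.2 ⟨inP_mem hu hX, hX⟩)), i2 X h⟩⟩
  filter_upwards [e0, e1] with b b0 b1 h
  have bo := ht.1.mem h.mem
  have : Tm Set.univ On (fun _ => b) := Tm.ofOrd bo
  refine ⟨fun x hx => ?_, fun a ha => ?_, fun f f0 f1 a ha => ?_⟩
  · obtain ⟨X, ⟨f, f1, i, i1, i2⟩, rfl⟩ := h.tr x hx
    obtain ⟨a, a1, a2⟩ := h.lim i i1
    exact ⟨a, a1, (inP_tru ht.1 hu h.mem (bo.subset_of_mem a1)).2 ⟨X, ⟨f, f1, i, a2, i2⟩, rfl⟩⟩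
  · obtain ⟨H, h1, h2, h3⟩ := b0 a ha
    refine ⟨tru H b, (card_img_le _ _).trans h1, fun f hf => ?_, fun x hx => ?_⟩
    · obtain ⟨f, f1, rfl⟩ := mem_img.1 hf
      have := hod_tm (h2 f f1).1
      have h4 : ∀ i ∈ b, app f i ∩ vC Set.univ b ∈ Lev b := fun i hi =>
        inter_Lev ht.1 ((h2 f f1).2.app_mem' (ht.1.mem_trans hi h.mem)) bo
      exact ⟨hod_grA (hod_ord bo) _ fun i hi => ((mem_Lev bo).1 (h4 i hi)).2, isFunc_gr h4⟩
    · obtain ⟨X, hX, rfl⟩ := (inP_tru ht.1 hu h.mem (bo.subset_of_mem ha)).1 hx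
      obtain ⟨f, f1, i, i1, rfl⟩ := h3 X hX
      exact ⟨_, mem_img.2 ⟨f, f1, rfl⟩, i, i1, pair_mem_gr.2 ⟨i1, rfl⟩⟩
  · obtain ⟨U, u1, u2⟩ := h.code ht.1 f0 f1
    obtain ⟨c, c1, c2, c3⟩ := b1 U u1 a ha
    have h1 : ∀ i ∈ b,
        app f i = ((vC Set.univ t).sep fun z => pair i z ∈ U) ∩ vC Set.univ b := fun i hi =>
      ZFSet.ext fun z => by
        rw [mem_inter, mem_sep]
        refine ⟨fun hz => ?_, fun hz => (u2 i hi z hz.2).2 hz.1.2⟩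
        have h2 := ((mem_Lev bo).1 (f1.app_mem' hi)).1 hz
        exact ⟨⟨(mem_vC_ord ht.1).2 (((mem_vC_ord bo).1 h2).trans (rank_lt_of_mem h.mem)),
          (u2 i hi z h2).1 hz⟩, h2⟩
    refine ⟨c, c1, fun i hi => (inP_tru ht.1 hu h.mem (bo.subset_of_mem c1)).2
      ⟨_, c2 i hi, h1 i (bo.mem_trans hi ha)⟩, fun i hi h2 => ?_⟩
    obtain ⟨X, x1, x2⟩ := (inP_tru ht.1 hu h.mem (bo.subset_of_mem ha)).1 h2
    have h3 := h.s2 U X u1 (inP_mono (bo.subset_of_mem ha) x1) i hi fun z hz => by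
      rw [← u2 i hi z hz, x2, mem_inter, and_iff_left hz]
    obtain ⟨j, j1, j2⟩ := c3 X x1 ⟨i, ht.1.mem_trans hi h.mem, ZFSet.ext fun z => by
      rw [mem_sep, ← h3]
      exact (and_iff_right_of_imp fun hz => ((mem_Lev ht.1).1 (inP_mem hu x1)).1 hz).symm⟩
    exact ⟨j, j1, by rw [h1 j (bo.mem_trans j1 c1), ← j2, x2]⟩

end Pool.Agent.MP_ecfd11_lc.H13U
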