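import Pool.Agent.MP_ecfd11_lc.H13U.Base

/-!
Few definable representatives.
-/

set_option synthInstance.maxSize 4000

namespace Pool.Agent.MP_ecfd11_lc.H13U

open Pool.Agent.MP_ecfd11_lc.H20 Pool.Agent.MP_ecfd11_lc.H13X Pool.Agent.MP_ecfd11_lc.H3U
  Pool.Agent.MP_ecfd11_lc.H3E Pool.Agent.MP_ecfd11_lc.H13F Pool.Agent.MP_ecfd11_lc.H65S

universe u

open ZFSet Cardinal Function Filter

variable {e t : ZFSet.{u}}

theorem reps (ht : Regular Set.univ t) (he : Regular Set.univ e)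
    (C : ZFSet.{u} → ZFSet.{u} → Prop) [Df Set.univ On (fun v => C (v 0) (v 1))] :
    ∃ F G : ZFSet.{u} → ZFSet.{u} → ZFSet.{u}, Tm Set.univ On (fun v => F (v 0) (v 1)) ∧
      Tm Set.univ On (fun v => G (v 0) (v 1)) ∧
      ∀ b ∈ t, Unc b → Sm e b → ∀ v, Can (C b) b v →
        ∀ w ∈ Lev (insert b b), ∀ w' ∈ Lev (insert b b), ∃ i ∈ succCard (powerset e),
          F i b ⊆ Lev b ∧ G i b ⊆ Lev b ∧
          Null b (b.sep fun a => ¬ (Gam b v w w' a ↔ Gam b v (F i b) (G i b) a)) := by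
  have := Df.two (C := Set.univ) (A := On) C
  have hL := hod_Lev ht.1
  obtain ⟨m, mo, k, k0, k1, k2⟩ := od_rank (prod (Lev t) (Lev t)) fun x hx => by
    obtain ⟨y, hy, z, hz, rfl⟩ := mem_prod.1 hx
    exact (hod_pair (hL.mem hy) (hL.mem hz)).self
  have := Tm.one (C := Set.univ) (A := On) k
  obtain ⟨D, hD⟩ : ∃ D : ZFSet.{u} → ZFSet.{u},
      ∀ b, D b = prod (lv (insert b b)) (lv (insert b b)) := ⟨_, fun _ => rfl⟩
  have : Tm Set.univ On (fun v => D (v 0)) :=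
    Tm.of (fun v => prod (lv (insert (v 0) (v 0))) (lv (insert (v 0) (v 0)))) inferInstance
      fun _ _ => (hD _).symm
  have := Tm.one (C := Set.univ) (A := On) D
  obtain ⟨P, hP⟩ : ∃ P : ZFSet.{u} → ZFSet.{u}, ∀ b, P b = (D b).sep fun q => ∀ r, r ∈ D b →
      (∀ v, C b v → Null b (b.sep fun a =>
        ¬ (Gam b v (fst q) (snd q) a ↔ Gam b v (fst r) (snd r) a))) → k r ∉ k q :=
    ⟨_, fun _ => rfl⟩
  have : Tm Set.univ On (fun v => P (v 0)) :=
    Tm.of (fun w => (D (w 0)).sep fun q => ∀ r, r ∈ D (w 0) →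
      (∀ v, C (w 0) v → Null (w 0) ((w 0).sep fun a =>
        ¬ (Gam (w 0) v (fst q) (snd q) a ↔ Gam (w 0) v (fst r) (snd r) a))) → k r ∉ k q)
      inferInstance fun _ _ => (hP _).symm
  have := Tm.one (C := Set.univ) (A := On) P
  obtain ⟨I, hI⟩ : ∃ I : ZFSet.{u} → ZFSet.{u}, ∀ b, I b = img k (P b) := ⟨_, fun _ => rfl⟩
  have : Tm Set.univ On (fun v => I (v 0)) :=
    Tm.of (fun w => img (fun z => k z) (P (w 0))) inferInstance fun _ _ => (hI _).symm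
  have := Tm.one (C := Set.univ) (A := On) I
  refine ⟨fun i b => fst (⋃₀ ((P b).sep fun q => colIn (I b) (k q) = i)),
    fun i b => snd (⋃₀ ((P b).sep fun q => colIn (I b) (k q) = i)), inferInstance, inferInstance,
    fun b hb hu hs v hc w hw w' hw' => ?_⟩
  have so := ord_succ hu.1
  have d0 : ∀ q ∈ D b, q ∈ prod (Lev t) (Lev t) := fun q hq => by
    rw [hD, lv_eq so] at hq
    obtain ⟨y, hy, z, hz, rfl⟩ := mem_prod.1 hq
    have h1 : ∀ x ∈ Lev (insert b b), x ∈ Lev t := fun x hx =>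
      (mem_Lev ht.1).2 ⟨fun z hz => vC_mono so ht.1 (ht.1.subset_of_mem (ht.succ_mem hb))
        (((mem_Lev so).1 hx).1 hz), ((mem_Lev so).1 hx).2⟩
    exact pair_mem_prod.2 ⟨h1 y hy, h1 z hz⟩
  have d1 : ∀ q ∈ D b, fst q ⊆ Lev b ∧ snd q ⊆ Lev b := fun q hq => by
    rw [hD, lv_eq so] at hq
    obtain ⟨y, hy, z, hz, rfl⟩ := mem_prod.1 hq
    have h1 : ∀ x ∈ Lev (insert b b), x ⊆ Lev b := fun x hx z hz => by
      rw [← lv_eq hu.1]
      exact mem_sep.2 ⟨((mem_Lev so).1 hx).1 hz, ((mem_Lev so).1 hx).2.mem hz⟩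
    rw [fst_pair, snd_pair]
    exact ⟨h1 y hy, h1 z hz⟩
  have ko : ∀ q ∈ D b, (k q).IsOrdinal := fun q hq => mo.mem (k1 q (d0 q hq))
  have e0 : ∀ q r : ZFSet.{u}, (∀ v, C b v → Null b (b.sep fun a =>
      ¬ (Gam b v (fst q) (snd q) a ↔ Gam b v (fst r) (snd r) a))) ↔
      ∀ᶠ a in cf b hu, (Gam b v (fst q) (snd q) a ↔ Gam b v (fst r) (snd r) a) := fun q r => by
    refine ⟨fun h => (ev_iff hu).2 (h v hc.1), fun h z hz => (ev_iff hu).1 ?_⟩
    filter_upwards [h, (ev_iff hu).2 (hc.2 z hz)] with a a1 a2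
    rw [gam_congr a2, gam_congr a2, a1]
  have p0 : ∀ q, q ∈ P b ↔ q ∈ D b ∧ ∀ r, r ∈ D b →
      (∀ᶠ a in cf b hu, (Gam b v (fst q) (snd q) a ↔ Gam b v (fst r) (snd r) a)) → k r ∉ k q :=
    fun q => by simp only [hP, mem_sep, e0]
  obtain ⟨c, c1, c2⟩ := hs.exists_club he hu.1
  have p1 : card (P b) ≤ card (powerset e) := by
    refine (card_le_of_inj (b := powerset c) (fun q => c.sep (Gam b v (fst q) (snd q)))
      (fun _ _ => mem_powerset.2 sep_subset) fun q hq r hr h => ?_).trans (by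
        rw [card_powerset, card_powerset]; exact power_le_power_left two_ne_zero c2.le)
    obtain ⟨q1, q2⟩ := (p0 q).1 hq
    obtain ⟨r1, r2⟩ := (p0 r).1 hr
    have h1 : ∀ᶠ a in cf b hu, (Gam b v (fst q) (snd q) a ↔ Gam b v (fst r) (snd r) a) := by
      filter_upwards [ev_club hu c1] with a ha
      have := ZFSet.ext_iff.1 h a
      simpa only [mem_sep, ha, true_and] using this
    rcases (ko q q1).mem_trichotomous (ko r r1) with h2 | h2 | h2
    exacts [absurd h2 (r2 q q1 (h1.mono fun _ h => h.symm)), k2 q (d0 q q1) r (d0 r r1) h2,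
      absurd h2 (q2 r r1 h1)]
  obtain ⟨q, ⟨q1, q2⟩, q3⟩ := (InvImage.wf k mem_wf).has_min
    {q | q ∈ D b ∧ ∀ᶠ a in cf b hu, (Gam b v w w' a ↔ Gam b v (fst q) (snd q) a)}
    ⟨pair w w', by rw [hD, lv_eq so]; exact pair_mem_prod.2 ⟨hw, hw'⟩,
      Eventually.of_forall fun a => by rw [fst_pair, snd_pair]⟩
  have q4 : q ∈ P b := (p0 q).2 ⟨q1, fun r r1 r2 => q3 r ⟨r1, by
    filter_upwards [q2, r2] with a a1 a2 using a1.trans a2⟩⟩
  have io : ∀ z ∈ I b, z.IsOrdinal := fun z hz => by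
    rw [hI] at hz
    obtain ⟨r, r1, rfl⟩ := mem_img.1 hz
    exact ko r ((p0 r).1 r1).1
  have im : ∀ r ∈ P b, k r ∈ I b := fun r hr => by rw [hI]; exact mem_img.2 ⟨r, hr, rfl⟩
  have q5 : ((P b).sep fun r => colIn (I b) (k r) = colIn (I b) (k q)) = {q} := by
    ext r
    rw [mem_sep, mem_singleton]
    exact ⟨fun h => k2 r (d0 r ((p0 r).1 h.1).1) q (d0 q q1)
      (colIn_inj io (im r h.1) (im q q4) h.2), fun h => by rw [h]; exact ⟨q4, rfl⟩⟩
  refine ⟨colIn (I b) (k q), mem_succCard.2 ⟨colIn_ord _ _, (card_colIn_le _ _).trans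
    (le_trans ?_ p1)⟩, ?_⟩
  · rw [hI]
    exact card_le_of_surj k fun z hz => mem_img.1 hz
  · simp only [q5, sUnion_singleton]
    exact ⟨(d1 q q1).1, (d1 q q1).2, (ev_iff hu).1 q2⟩

end Pool.Agent.MP_ecfd11_lc.H13U
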