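import Pool.Agent.MP_ecfd11_lc.H13U.Base

/-!
Antichains are small if few sets split.
-/

set_option synthInstance.maxSize 4000

namespace Pool.Agent.MP_ecfd11_lc.H13U

open Pool.Agent.MP_ecfd11_lc.H20 Pool.Agent.MP_ecfd11_lc.H13X Pool.Agent.MP_ecfd11_lc.H3U
  Pool.Agent.MP_ecfd11_lc.H3E Pool.Agent.MP_ecfd11_lc.H13F Pool.Agent.MP_ecfd11_lc.H65S

universe u

open ZFSet Cardinal Function Filter

variable {t S G M : ZFSet.{u}}

theorem types_fr {q p : ZFSet.{u} → Prop} (hu : Unc t) :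
    (∃ᶠ a in cf (S.sep q) hu, p a) ↔ ∃ᶠ a in cf S hu, p a ∧ q a := by
  rw [fr_iff, fr_iff]
  refine not_congr (iff_of_eq (congrArg (Null t) (ZFSet.ext fun a => ?_)))
  simp only [mem_sep]
  tauto

theorem types (ht : Regular Set.univ t) (hp : card (powerset G) < card t) (P : ZFSet.{u} → ZFSet.{u} → ZFSet.{u} → Prop)
    (f : ZFSet.{u} → ZFSet.{u} → ZFSet.{u})
    (hP : ∀ x ∈ M, ∀ y ∈ M, ∀ a ∈ t, P x y a → f x a ∈ f y a)
    (h1 : ∀ x ∈ M, ∀ y ∈ M, ∀ T, T ⊆ S → (∃ᶠ a in cf T (unc_of_regular ht), P x y a) →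
      (∃ᶠ a in cf T (unc_of_regular ht), ¬ P x y a) → ∃ X ∈ G,
        (∃ᶠ a in cf T (unc_of_regular ht), a ∈ X) ∧ ∃ᶠ a in cf T (unc_of_regular ht), a ∉ X)
    (h2 : ∀ x ∈ M, ∀ y ∈ M, x ≠ y → ∃ᶠ a in cf S (unc_of_regular ht), P x y a) :
    card M ≤ 2 ^ max ℵ₀ (card (powerset G)) := by
  have hu := unc_of_regular ht
  let T : ZFSet.{u} → ZFSet.{u} := fun j => S.sep fun a => G.sep (fun X => a ∈ X) = j
  have key : ∀ x ∈ M, ∀ y ∈ M, x ≠ y → ∃ j ∈ powerset G,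
      (∃ᶠ a in cf (T j) hu, P x y a) ∧ ∀ᶠ a in cf (T j) hu, P x y a := by
    intro x hx y hy hne
    obtain ⟨j, j1, j2⟩ := fr_piece' ht hp (fun a => G.sep fun X => a ∈ X) (h2 x hx y hy hne)
      fun _ _ => mem_powerset.2 sep_subset
    have j3 : ∃ᶠ a in cf (T j) hu, P x y a := (types_fr hu).2 j2
    refine ⟨j, j1, j3, ?_⟩
    by_contra h0
    obtain ⟨X, x1, x2, x3⟩ := h1 x hx y hy (T j) sep_subset j3 (not_eventually.1 h0)
    obtain ⟨a, a1, a2⟩ := ((types_fr hu).1 x2).exists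
    obtain ⟨b, b1, b2⟩ := ((types_fr hu).1 x3).exists
    have h3 : X ∈ G.sep fun X => a ∈ X := mem_sep.2 ⟨x1, a1⟩
    rw [a2, ← b2] at h3
    exact b1 (mem_sep.1 h3).2
  let v : Shrink.{u} M → ZFSet.{u} := fun x => ((equivShrink M).symm x).1
  have hv : ∀ x, v x ∈ M := fun x => ((equivShrink M).symm x).2
  let R : ZFSet.{u} → Shrink.{u} M → Shrink.{u} M → Prop := fun j x y =>
    (∃ᶠ a in cf (T j) hu, P (v x) (v y) a) ∧ ∀ᶠ a in cf (T j) hu, P (v x) (v y) a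
  have wf : ∀ j, WellFounded (R j) := fun j => by
    refine wellFounded_iff_isEmpty_descending_chain.2 ⟨fun ⟨z, hz⟩ => ?_⟩
    obtain ⟨a, -, a1, a2⟩ := ((hz 0).1.and_eventually
      ((ev_nat hu fun n => (hz n).2).and (ev_mem hu))).exists
    exact (wellFounded_iff_isEmpty_descending_chain.1 ZFSet.mem_wf).false
      ⟨fun n => f (v (z n)) a, fun n => hP _ (hv _) _ (hv _) a a2.2 (a1 n)⟩
  refine er_pure (X := Shrink.{u} M) (I := Shrink.{u} (powerset G))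
    (fun x i => ((wf ((equivShrink _).symm i).1).apply x).rank) fun x y hxy => ?_
  obtain ⟨j, j1, j2⟩ := key _ (hv y) _ (hv x) fun e =>
    hxy ((equivShrink M).symm.injective (Subtype.ext e.symm))
  refine ⟨equivShrink _ ⟨j, j1⟩, Acc.rank_lt_of_rel _ ?_⟩
  rw [Equiv.symm_apply_apply]
  exact j2

end Pool.Agent.MP_ecfd11_lc.H13U
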