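import Pool.Agent.MP_ecfd11_lc.H13U.Gd
import Pool.Agent.MP_ecfd11_lc.H13U.Nice
import Pool.Agent.MP_ecfd11_lc.H13U.Loc
import Pool.Agent.MP_ecfd11_lc.H13U.Min
import Pool.Agent.MP_ecfd11_lc.H13U.Reps
import Pool.Agent.MP_ecfd11_lc.H13U.Glue
import Pool.Agent.MP_ecfd11_lc.H13U.Types
import Pool.Agent.MP_ecfd11_lc.H3U.ReflB

/-!
The case that the cardinal is strongly measurable.
-/

set_option synthInstance.maxSize 4000

namespace Pool.Agent.MP_ecfd11_lc.H13U

open Pool.Agent.MP_ecfd11_lc.H20 Pool.Agent.MP_ecfd11_lc.H13X Pool.Agent.MP_ecfd11_lc.H3U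
  Pool.Agent.MP_ecfd11_lc.H3E Pool.Agent.MP_ecfd11_lc.H13F Pool.Agent.MP_ecfd11_lc.H65S

universe u

open ZFSet Cardinal Function Filter

variable {d g e m t u W : ZFSet.{u}}

theorem ev_hod (ht : Regular Set.univ t) (he : Regular Set.univ e) (hm : m ∈ t)
    (hm' : 2 ^ (2 : Cardinal.{u}) ^ card e < card m) (go : g.IsOrdinal) (hu : En t (Lev t) u) (hW : K t W) :
    ∀ᶠ b in cf t (unc_of_regular ht), Gd t u b → Ni g b (Lev b) (tru u b) → Unc b → BdK g b →
      Sm e b → pull u b W ∈ Lev (insert b b) := by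
  filter_upwards [ev_least ht u W, ev_above (unc_of_regular ht) hm] with b l1 l2 h n1 hb hg hs
  have bo := hb.1
  have : Tm Set.univ On (fun _ => g) := Tm.ofOrd go
  have : Tm Set.univ On (fun _ => b) := Tm.ofOrd bo
  have := hod_tm (hod_Lev bo)
  obtain ⟨c, c1, c2⟩ := hs.exists_club he bo
  obtain ⟨p, p1, p2⟩ := hW.rz ht hu h.mem
  refine (mem_P bo).2 ⟨h.pull_sub ht.1 hu, rz_low hb (Ni g b (Lev b)) (n1.can hb hg) n1.1 c1
    (((power_le_power_left two_ne_zero (power_le_power_left two_ne_zero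
      (max_le he.aleph0_lt.le c2.le))).trans_lt hm').trans_le (card_mono (bo.subset_of_mem l2)))
    (h.pull_sub ht.1 hu) (h.apx ht.1 hu p1 p2) fun a ha => ?_⟩
  obtain ⟨q, q1, -, q2⟩ := l1 a ha p p1 (rz_mono (bo.subset_of_mem ha) p2)
  exact ⟨q, q1, (h.rz ht.1 hu (bo.subset_of_mem ha) q1).2 q2⟩

theorem split (he : StronglyCompact e t) (hed : e ∈ d) (hdt : d ⊆ t)
    (hd : StronglyMeasurable Set.univ d) (hs : StronglyMeasurable Set.univ t)
    (sl : ∀ k < card d, 2 ^ k < card d) (hg : g ∈ e) (hc : Cvr (card g) t (Lev t))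
    (hu : En t (Lev t) u) :
    ∃ G : ZFSet.{u}, card G < card d ∧ ∀ x y, K t x → K t y → ∀ T, T ⊆ t.sep (Sm e) →
      (∃ᶠ a in cf T (unc_of_regular hs.1), Gam t u x y a) →
      (∃ᶠ a in cf T (unc_of_regular hs.1), ¬ Gam t u x y a) → ∃ X ∈ G,
        (∃ᶠ a in cf T (unc_of_regular hs.1), a ∈ X) ∧
          ∃ᶠ a in cf T (unc_of_regular hs.1), a ∉ X := by
  classical
  have ht := hs.1
  have hn := unc_of_regular ht
  have go := he.1.1.mem hg
  have : Tm Set.univ On (fun _ => g) := Tm.ofOrd go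
  have het := hdt hed
  obtain ⟨m, m1, m2⟩ := H57F.gap_of_sm he.1 hed hd
  obtain ⟨Z, z1, z2, z3⟩ := atoms he het hs (hdt m1) m2
  have h8 : ∀ x, card x < card d → card (succCard (powerset x)) < card d := fun x hx => by
    rw [card_succCard, card_powerset]
    exact (Order.succ_le_of_lt (cantor _)).trans_lt (sl _ (sl _ hx))
  have h9 : succCard (powerset (powerset e)) ∈ t := hdt (hd.1.mem_of_card_lt (succCard_ord _)
    (h8 _ (by rw [card_powerset]; exact sl _ (hd.1.card_lt hed))))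
  have h10 : 2 ^ (2 : Cardinal.{u}) ^ card e < card (succCard (powerset (powerset e))) := by
    rw [card_succCard, card_powerset, card_powerset]
    exact Order.lt_succ _
  obtain ⟨F, G, f0, g0, hF⟩ := reps ht he.1 fun b v => Ni g b (lv b) v
  have := Tm.two (C := Set.univ) (A := On) F
  have := Tm.two (C := Set.univ) (A := On) G
  have hI' : card (prod Z (succCard (powerset e))) < card d :=
    (card_prod_le _ _).trans_lt (mul_lt_of_lt hd.1.aleph0_lt.le (z1.trans_lt (hd.1.card_lt m1))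
      (h8 _ (hd.1.card_lt hed)))
  have hI := hI'.trans_le (card_mono hdt)
  have key : ∀ q, ∃ X Y, q ∈ prod Z (succCard (powerset e)) → ∀ᶠ b in cf t hn, b ∈ fst q →
      Gd t u b → F (snd q) b ⊆ Lev b → G (snd q) b ⊆ Lev b → ∀ a ∈ b,
        (Gam t u X Y a ↔ Gam b (tru u b) (F (snd q) b) (G (snd q) b) a) := fun q => by
    by_cases hq : q ∈ prod Z (succCard (powerset e))
    swap
    · exact ⟨∅, ∅, fun h => absurd h hq⟩
    obtain ⟨A, hA, i, hi, rfl⟩ := mem_prod.1 hq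
    have : Tm Set.univ On (fun _ => i) := Tm.ofOrd ((succCard_ord _).mem hi)
    obtain ⟨X, hX⟩ := glue ht (z2 A hA) hu fun b => F i b
    obtain ⟨Y, hY⟩ := glue ht (z2 A hA) hu fun b => G i b
    refine ⟨X, Y, fun _ => ?_⟩
    simp only [fst_pair, snd_pair]
    filter_upwards [hX, hY, loc ht hu X Y] with b l1 l2 l3 h1 h2 h3 h4
    rw [← l1 h1 h2 h3, ← l2 h1 h2 h4]
    exact l3 h2
  choose X Y hX using key
  refine ⟨img (fun q => t.sep (Gam t u (X q) (Y q))) (prod Z (succCard (powerset e))),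
    (card_img_le _ _).trans_lt hI', fun x y hx hy T hT h1 h2 => by_contra fun h0 => ?_⟩
  have h3 : ∀ q ∈ prod Z (succCard (powerset e)), ∀ᶠ b in cf t hn,
      Null b (T.sep fun a => ¬ ¬ Gam t u (X q) (Y q) a) ∨
        Null b (T.sep fun a => ¬ Gam t u (X q) (Y q) a) := fun q hq => by
    by_cases h4 : ∃ᶠ a in cf T hn, a ∈ t.sep (Gam t u (X q) (Y q))
    · have h5 : ∀ᶠ a in cf T hn, Gam t u (X q) (Y q) a := by
        filter_upwards [not_frequently.1 fun h => h0 ⟨_, mem_img.2 ⟨q, hq, rfl⟩, h4, h⟩]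
          with a ha using (mem_sep.1 (not_not.1 ha)).2
      exact (ev_refl ht h5).mono fun b hb => Or.inr hb
    · have h5 : ∀ᶠ a in cf T hn, ¬ Gam t u (X q) (Y q) a := by
        filter_upwards [not_frequently.1 h4, ev_mem hn] with a ha l h using
          ha (mem_sep.2 ⟨l.2, h⟩)
      exact (ev_refl ht h5).mono fun b hb => Or.inl hb
  have h4 := refl_big he het ht g {∅, {∅}} (fun i => if i = ∅ then T.sep (Gam t u x y)
    else T.sep fun a => ¬ Gam t u x y a) (he.1.card_lt hg) (card_insert_le.trans_lt (by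
      rw [card_singleton]
      exact (add_lt_aleph0 one_lt_aleph0 one_lt_aleph0).trans he.1.aleph0_lt)) fun i _ => by
      split_ifs
      exacts [⟨fun y hy => (mem_sep.1 (hT (mem_sep.1 hy).1)).2, (fr_iff hn).1 h1⟩,
        ⟨fun y hy => (mem_sep.1 (hT (mem_sep.1 hy).1)).2, (fr_iff hn).1 h2⟩]
  obtain ⟨b, ⟨c1, c2, c3, c4⟩, d1, d2, d3, d4, d5, d6, d7, d8⟩ :=
    (((fr_iff (S := t) hn).2 h4).and_eventually ((ev_gd he het hs hu).and
      ((ev_ni ht (ht.1.mem_trans hg het) hc hu).and ((ev_hod ht he.1 h9 h10 go hu hx).and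
      ((ev_hod ht he.1 h9 h10 go hu hy).and ((loc ht hu x y).and (z3.and
      ((ev_ball ht hI hX).and (ev_ball ht hI h3))))))))).exists
  have c7 := c4 ∅ (mem_insert _ _)
  have c8 := c4 {∅} (mem_insert_of_mem _ (mem_singleton.2 rfl))
  rw [if_pos rfl] at c7
  rw [if_neg fun e : ({∅} : ZFSet.{u}) = ∅ =>
    notMem_empty ∅ (by rw [← e]; exact mem_singleton.2 e)] at c8
  obtain ⟨A, a1, a2⟩ := d6 c1
  obtain ⟨i, i1, i2, i3, i4⟩ := hF b d1.mem c2 c1 (tru u b)
    (by rw [lv_eq c2.1]; exact (d2 d1).can c2 c3) _ (d3 d1 (d2 d1) c2 c3 c1) _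
    (d4 d1 (d2 d1) c2 c3 c1)
  have hq : pair A i ∈ prod Z (succCard (powerset e)) := pair_mem_prod.2 ⟨a1, i1⟩
  have e1 := d7 _ hq
  simp only [fst_pair, snd_pair] at e1
  have e2 : ∀ a ∈ b, a ∉ (b.sep fun a => ¬ (Gam b (tru u b) (pull u b x) (pull u b y) a ↔
      Gam b (tru u b) (F i b) (G i b) a)) →
      (Gam t u x y a ↔ Gam t u (X (pair A i)) (Y (pair A i)) a) := fun a ha h => by
    rw [d5 d1 a ha, e1 a2 d1 i2 i3 a ha]
    exact not_not.1 fun h' => h (mem_sep.2 ⟨ha, h'⟩)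
  rcases d8 _ hq with h | h
  · exact c7 ((c2.null_union h i4).mono fun a a3 a4 => mem_union.2 (or_iff_not_imp_right.2
      fun h5 => mem_sep.2 ⟨(mem_sep.1 a3).1, not_not.2 ((e2 a a4 h5).1 (mem_sep.1 a3).2)⟩))
  · exact c8 ((c2.null_union h i4).mono fun a a3 a4 => mem_union.2 (or_iff_not_imp_right.2
      fun h5 => mem_sep.2 ⟨(mem_sep.1 a3).1, fun h6 => (mem_sep.1 a3).2 ((e2 a a4 h5).2 h6)⟩))

end Pool.Agent.MP_ecfd11_lc.H13U
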