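import Pool.Agent.MP_ecfd11_lc.H13U.Cov
import Pool.Agent.MP_ecfd11_lc.H13U.Near
import Pool.Agent.MP_ecfd11_lc.H13U.Split

/-!
Complete ultrafilters over HOD are in HOD.
-/

set_option synthInstance.maxSize 4000

namespace Pool.Agent.MP_ecfd11_lc.H13U

open Pool.Agent.MP_ecfd11_lc.H20 Pool.Agent.MP_ecfd11_lc.H13X Pool.Agent.MP_ecfd11_lc.H3U
  Pool.Agent.MP_ecfd11_lc.H3E Pool.Agent.MP_ecfd11_lc.H13F Pool.Agent.MP_ecfd11_lc.H65S

universe u

open ZFSet Cardinal Function Filter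

variable {d g e t u W : ZFSet.{u}}

theorem far (he : StronglyCompact e t) (hed : e ∈ d) (hdt : d ⊆ t)
    (hd : StronglyMeasurable Set.univ d) (hs : StronglyMeasurable Set.univ t)
    (sl : ∀ k < card d, 2 ^ k < card d) (hg : g ∈ e) (hc : Cvr (card g) t (Lev t))
    (hu : En t (Lev t) u) (hW : K t W) : HOD Set.univ W := by
  have ht := hs.1
  have hn := unc_of_regular ht
  have : Tm Set.univ On (fun _ => t) := Tm.ofOrd ht.1
  have : Tm Set.univ On (fun _ => e) := Tm.ofOrd he.1.1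
  have := hod_tm (hod_Lev ht.1)
  obtain ⟨G, g1, g2⟩ := split he hed hdt hd hs sl hg hc hu
  have g3 := card_mono hdt
  have g4 : card (powerset G) < card d := by rw [card_powerset]; exact sl _ g1
  have f1 : ∀ x, x ∈ (powerset (Lev t)).sep (K t) ↔ K t x := fun x =>
    mem_sep.trans (and_iff_right_of_imp fun h => mem_powerset.2 h.1)
  refine rz_min (S := t.sep (Sm e)) hn (En t (Lev t)) (can_top ht hu) (fun x hx => ?_)
    (od_iff.2 inferInstance) (fun h => ?_)
    (F := (powerset (Lev t)).sep (K t)) (od_iff.2 (by unfold K; infer_instance))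
    (fun w hw => ⟨((f1 w).1 hw).1, ((f1 w).1 hw).apx ht.1,
      fun a ha => ((f1 w).1 hw).rz ht hu ha⟩)
    (fun M m1 m2 => (sl _ ((types ht (g4.trans_le g3) (Gam t u)
      (fun x a => leastBy t (fun x => x) (Rz u a x)) (fun x hx y hy a ha h => (lemA_lt ht.1
        (((f1 x).1 (m1 hx)).rz ht hu ha) (((f1 y).1 (m1 hy)).rz ht hu ha)).1 h)
      (fun x hx y hy => g2 x y ((f1 x).1 (m1 hx)) ((f1 y).1 (m1 hy))) m2).trans_lt
        (sl _ (max_lt hd.1.aleph0_lt g4)))).trans_le g3) W ((f1 W).2 hW)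
  · obtain ⟨i, i1, i2⟩ := hu.inP hx
    exact ⟨_, hn.succ_mem i1, i2 _ (mem_insert _ _)⟩
  · exact he.refl (hdt hed) ht ∅ (fun x => x)
      (by rw [card_empty]; exact aleph0_pos.trans he.1.aleph0_lt)
      (fun i hi => absurd hi (notMem_empty i))
      (h.mono fun b b1 b2 => mem_sep.2 ⟨b2, (mem_sep.1 b1).2.1⟩)

theorem k_hod (hd : Extendible d) (ht : Regular Set.univ t) (hdt : d ⊆ t)
    (hg : g ∈ d) (ho : om ⊆ g) (hc : Cvr (card g) t (Lev t)) (hW : K t W) : HOD Set.univ W := by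
  obtain ⟨m, n, j, -, x⟩ := hd.xe 0
  by_cases hs0 : StronglyMeasurable Set.univ d
  swap
  · exact near_hod hd ht hdt x.regular subset_rfl hs0 hW
  have sl : ∀ k < card d, 2 ^ k < card d := fun k hk => by
    have := x.sl (x.regular.mem_of_card_lt (isOrdinal_toZFSet k.ord) (by rwa [card_ord']))
    rwa [card_powerset, card_ord'] at this
  by_cases hs : StronglyMeasurable Set.univ t
  swap
  · exact near_hod hd ht hdt ht hdt hs hW
  have h1 : t ∈ succCard t := mem_succCard.2 ⟨ht.1, le_rfl⟩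
  by_cases hs' : StronglyMeasurable Set.univ (succCard t)
  swap
  · exact near_hod hd ht hdt (regular_succCard ht.aleph0_lt.le)
      (fun z hz => (succCard_ord t).mem_trans (hdt hz) h1) hs' hW
  obtain ⟨e, e1, e2, e3⟩ := exists_sc_above hd ht.1 hg ho
  obtain ⟨F, hF⟩ := exists_surj_of_card_le (card_Lev hs' h1)
  classical
  have h0 : ∅ ∈ Lev t := (mem_Lev ht.1).2 ⟨empty_subset _, hod_ord isOrdinal_empty⟩
  refine far (u := {gr (fun x => if F x ∈ Lev t then F x else ∅) t}) e3 e1 hdt hs0 hs sl e2 hc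
    ⟨?_, fun f hf => mem_singleton.1 hf ▸ isFunc_gr fun x _ => ?_, fun A hA => ?_⟩ hW
  · rw [card_singleton, card_om]
    exact one_le_aleph0
  · split_ifs with h
    exacts [h, h0]
  · obtain ⟨x, hx, rfl⟩ := hF A hA
    exact ⟨_, mem_singleton.2 rfl, x, pair_mem_gr.2 ⟨hx, if_pos hA⟩⟩

theorem main {k : Cardinal.{u}} (hd : Extendible d) (ht : Regular Set.univ t) (hdt : d ⊆ t)
    (hk : k < card d) (hc : Few k t (Lev t))
    (U : Filter ZFSet.{u}) (h0 : U.NeBot) (h1 : CardinalInterFilter U (lift.{u + 1} (card t)))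
    (h2 : (t : Set ZFSet.{u}) ∈ U)
    (h3 : ∀ A, HOD Set.univ A → A ⊆ t → (A : Set ZFSet.{u}) ∈ U ∨ (A : Set ZFSet.{u})ᶜ ∈ U) :
    HOD Set.univ ((powerset t).sep fun A => HOD Set.univ A ∧ (A : Set ZFSet.{u}) ∈ U) := by
  obtain ⟨m, n, j, -, e⟩ := hd.xe 0
  have go := isOrdinal_toZFSet (max k ℵ₀).ord
  have g1 : card (max k ℵ₀).ord.toZFSet = max k ℵ₀ := card_ord' _
  have hc' : Cvr (max k ℵ₀) t (Lev t) := by
    obtain ⟨n, f, a1, a2, a3, a4, a5⟩ := hc
    exact cvr_of_few ht (le_max_right _ _) (hod_Lev ht.1)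
      ⟨n, f, a1, a2, a3, a4, a5.trans (le_max_left _ _)⟩
  have : Tm Set.univ On (fun _ => t) := Tm.ofOrd ht.1
  have hW : HOD Set.univ ((Lev t).sep fun A => (A : Set ZFSet.{u}) ∈ U) := by
    refine k_hod hd ht hdt (e.regular.mem_of_card_lt go
      (g1.trans_lt (max_lt hk e.regular.aleph0_lt)))
      ((om_subset_iff go).2 ((le_max_right _ _).trans_eq g1.symm)) (by rwa [g1])
      ⟨sep_subset, fun Z z1 z2 => ?_⟩
    have h4 : ∀ᶠ p in U, ∀ A ∈ Z, ((A : Set ZFSet.{u}) ∈ U ↔ p ∈ A) :=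
      (eventually_cardinal_ball (S := (Z : Set ZFSet.{u}))
        (p := fun p A _ => (A : Set ZFSet.{u}) ∈ U ↔ p ∈ A) (by
          have := cardinalMk_coe_sort (x := Z)
          change #Z < _
          rw [this]
          exact lift_lt.2 (not_le.1 z2))).2 fun A hA => by
        by_cases h : (A : Set ZFSet.{u}) ∈ U
        · filter_upwards [h] with p hp using iff_of_true h hp
        · rcases h3 (A ∩ t) (hod_inter ((mem_Lev ht.1).1 (z1 hA)).2 (od_iff.2 this))
            (fun _ hz => (mem_inter.1 hz).2) with h5 | h5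
          · exact absurd (mem_of_superset h5 fun _ hz => (mem_inter.1 hz).1) h
          · filter_upwards [h5, h2] with p p1 p2 using
              iff_of_false h fun hp => p1 (mem_inter.2 ⟨hp, p2⟩)
    obtain ⟨p, p1, p2⟩ := (h4.and h2).exists
    exact ⟨p, p2, fun A hA => (mem_sep.trans (and_iff_right (z1 hA))).trans (p1 A hA)⟩
  have e1 : ((powerset t).sep fun A => HOD Set.univ A ∧ (A : Set ZFSet.{u}) ∈ U) =
      ((Lev t).sep fun A => (A : Set ZFSet.{u}) ∈ U) ∩ powerset t := ZFSet.ext fun A => by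
    rw [mem_sep, mem_inter, mem_sep, mem_Lev ht.1, mem_powerset]
    exact ⟨fun h => ⟨⟨⟨fun z hz => H3E.mem_vC ht.1 (h.1 hz), h.2.1⟩, h.2.2⟩, h.1⟩,
      fun h => ⟨h.2, h.1.1.2, h.1.2⟩⟩
  exact e1 ▸ hod_inter hW (od_iff.2 inferInstance)

end Pool.Agent.MP_ecfd11_lc.H13U
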